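import Pool.Agent.Helper88.GP.Defs

set_option autoImplicit false

/-!
# GP-Val: valuations of relabelled numbers

`|s x| = 1`. `val s e π x` is `± ∏ q, (π q) ^ (e x q)`, so it is not zero, its valuation at the prime
`π q` is `e x q` (the other factors are powers of different primes; reindex the product by `π`, i.e.
`∏ q, (π q) ^ e x q = ∏ q, q ^ e x (π⁻¹ q)`), and its valuation at a prime outside `P` is `0`.
`val_inj`: the exponents agree, so the products agree, so the signs agree.
`act_card`: every prime of `T` is in `P`, say `π q`, and then `e x q ≠ e g q`.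
-/

open Finset

namespace Pool.Agent.Helper88.GP

variable {X : Type*} [DecidableEq X] {P : Finset ℕ}

theorem natAbs_val (s : X → ℤ) (e : X → P → ℕ) (π : Equiv.Perm P) (x : X)
    (hs : |s x| = 1) : (val s e π x).natAbs = ∏ q : P, (π q : ℕ) ^ e x q := by
  have h1 : (s x).natAbs = 1 := by
    have := Int.abs_eq_natAbs (s x)
    omega
  have h2 : val s e π x = s x * ((∏ q : P, (π q : ℕ) ^ e x q : ℕ) : ℤ) := by
    unfold val
    push_cast
    rfl
  rw [h2, Int.natAbs_mul, h1, one_mul, Int.natAbs_natCast]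

theorem fac_val (hp : ∀ q ∈ P, q.Prime) (s : X → ℤ) (e : X → P → ℕ) (π : Equiv.Perm P) (x : X)
    (hs : |s x| = 1) (p : ℕ) (hpp : p.Prime) :
    padicValInt p (val s e π x) = ∑ q : P, if (π q : ℕ) = p then e x q else 0 := by
  unfold padicValInt
  rw [natAbs_val s e π x hs, ← Nat.factorization_def _ hpp, Nat.factorization_prod_apply]
  · refine sum_congr rfl fun q _ => ?_
    rw [(hp _ (π q).2).factorization_pow, Finsupp.single_apply]
  · intro q _
    exact pow_ne_zero _ (hp _ (π q).2).ne_zero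

theorem val_ne_zero (hp : ∀ q ∈ P, q.Prime) (s : X → ℤ) (e : X → P → ℕ) (π : Equiv.Perm P) (x : X)
    (hs : |s x| = 1) : val s e π x ≠ 0 := by
  rw [← Int.natAbs_ne_zero, natAbs_val s e π x hs, prod_ne_zero_iff]
  intro q _
  exact pow_ne_zero _ (hp _ (π q).2).ne_zero

theorem padic_val (hp : ∀ q ∈ P, q.Prime) (s : X → ℤ) (e : X → P → ℕ) (π : Equiv.Perm P) (x : X)
    (hs : |s x| = 1) (q : P) : padicValInt (π q : ℕ) (val s e π x) = e x q := by
  rw [fac_val hp s e π x hs _ (hp _ (π q).2), Finset.sum_eq_single q]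
  · simp
  · intro r _ hr
    rw [if_neg]
    intro h
    exact hr (π.injective (Subtype.ext h))
  · intro h
    exact absurd (mem_univ q) h

theorem padic_val_out (hp : ∀ q ∈ P, q.Prime) (s : X → ℤ) (e : X → P → ℕ) (π : Equiv.Perm P)
    (x : X) (hs : |s x| = 1) (p : ℕ) (hpp : p.Prime) (hpP : p ∉ P) :
    padicValInt p (val s e π x) = 0 := by
  rw [fac_val hp s e π x hs _ hpp]
  refine sum_eq_zero fun q _ => ?_
  rw [if_neg]
  rintro rfl
  exact hpP (π q).2

theorem val_inj (hp : ∀ q ∈ P, q.Prime) (s : X → ℤ) (e : X → P → ℕ) (π : Equiv.Perm P) (x y : X)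
    (hx : |s x| = 1) (hy : |s y| = 1) (h : val s e π x = val s e π y) : s x = s y ∧ e x = e y := by
  have he : e x = e y := by
    funext q
    rw [← padic_val hp s e π x hx q, ← padic_val hp s e π y hy q, h]
  refine ⟨?_, he⟩
  have h3 : (∏ q : P, ((π q : ℕ) : ℤ) ^ e x q) ≠ 0 := by
    rw [prod_ne_zero_iff]
    intro q _
    exact pow_ne_zero _ (by exact_mod_cast (hp _ (π q).2).ne_zero)
  unfold val at h
  rw [← he] at h
  exact mul_right_cancel₀ h3 h

theorem act_card (hp : ∀ q ∈ P, q.Prime) (s : X → ℤ) (e : X → P → ℕ) (π : Equiv.Perm P) (g x : X)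
    (hg : |s g| = 1) (hx : |s x| = 1) (T : Finset ℕ)
    (hT : ∀ p ∈ T, p.Prime ∧ padicValInt p (val s e π x) ≠ padicValInt p (val s e π g)) :
    T.card ≤ ham e g x := by
  unfold ham
  have h1 : T ⊆ (univ.filter fun q : P => e g q ≠ e x q).image fun q => ((π q : P) : ℕ) := by
    intro p hpT
    obtain ⟨hpp, hne⟩ := hT p hpT
    have hP : p ∈ P := by
      by_contra hpP
      apply hne
      rw [padic_val_out hp s e π x hx p hpp hpP, padic_val_out hp s e π g hg p hpp hpP]
    refine mem_image.2 ⟨π.symm ⟨p, hP⟩, ?_, by simp⟩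
    rw [mem_filter]
    refine ⟨mem_univ _, ?_⟩
    intro h
    apply hne
    have e1 := padic_val hp s e π x hx (π.symm ⟨p, hP⟩)
    have e2 := padic_val hp s e π g hg (π.symm ⟨p, hP⟩)
    rw [Equiv.apply_symm_apply] at e1 e2
    change padicValInt p (val s e π x) = _ at e1
    change padicValInt p (val s e π g) = _ at e2
    rw [e1, e2, h]
  exact (card_le_card h1).trans card_image_le

end Pool.Agent.Helper88.GP
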