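import Pool.Agent.Helper88.GP.Inj
import Pool.Agent.Helper88.GP.Far
import Pool.Agent.Helper88.GP.Val

set_option autoImplicit false

/-!
# GP-Big: good permutations satisfy the inequality of Q1 for large subsets

Let `N = |B|`, `B' = B.image (val s e π)` (`|B'| = N` by `val_inj` and `hinj`).
* `N < k ^ 4`: `mx ≥ 1` and `N ^ (k - ε) ≤ N ^ k ≤ k ^ (4 k)`. Also if `k - ε ≤ 0`: `N ^ (k-ε) ≤ 1`.
* If `k ^ 2 * #{b ∈ B : ham a b ≤ d} ≤ N` for all `a ∈ B`: `far_card`, `sums_card` (with `far_inj`;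
  far tuples are injective since `ham e x x = 0`): `N ^ k ≤ 2 k! |k B'|`.
* Otherwise some ball `C = {b ∈ B : ham a b ≤ d}`, `k ^ 2 |C| > N ≥ k ^ 4`, so `|C| ≥ N ^ (1/2)`; the
  numbers `val b`, `b ∈ C`, and `g = val a` satisfy the hypothesis of `FewH` by `act_card`
  (`d ≤ c₁ / 2 * log N ≤ c₁ log |C|`), so `mx ≥ c₁ |C| ^ (k - ε) ≥ c₁ k ^ (-2 k) N ^ (k - ε)`; `mx` is
  monotone in the set.
-/

open Finset

namespace Pool.Agent.Helper88.GP

variable {X : Type*} [DecidableEq X] {P : Finset ℕ}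

/-- the maximum of the numbers of `k`-fold sums and products -/
noncomputable def mx (k : ℕ) (A : Finset ℤ) : ℝ :=
  max (((Fintype.piFinset (fun _ : Fin k => A)).image
      (fun f : Fin k → ℤ => ∑ i, f i)).card : ℝ)
    (((Fintype.piFinset (fun _ : Fin k => A)).image
      (fun f : Fin k → ℤ => ∏ i, f i)).card : ℝ)

/-- the inequality of Q1 for sets whose elements differ from `g` at few primes -/
def FewH (k : ℕ) (ε c : ℝ) : Prop :=
  ∀ A : Finset ℤ, A.Nonempty → ∀ g : ℤ, g ≠ 0 →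
    (∀ a ∈ A, ∀ T : Finset ℕ, (∀ p ∈ T, p.Prime ∧ padicValInt p a ≠ padicValInt p g) →
      (T.card : ℝ) ≤ c * Real.log A.card) →
    c * (A.card : ℝ) ^ ((k : ℝ) - ε) ≤ mx k A

private theorem mx_mono (k : ℕ) {A B : Finset ℤ} (h : A ⊆ B) : mx k A ≤ mx k B := by
  have h1 : Fintype.piFinset (fun _ : Fin k => A) ⊆ Fintype.piFinset (fun _ : Fin k => B) :=
    Fintype.piFinset_subset _ _ fun _ => h
  unfold mx
  refine max_le_max ?_ ?_
  · exact_mod_cast card_le_card (image_subset_image h1)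
  · exact_mod_cast card_le_card (image_subset_image h1)

private theorem one_le_mx (k : ℕ) {A : Finset ℤ} (h : A.Nonempty) : 1 ≤ mx k A := by
  unfold mx
  refine le_max_of_le_left ?_
  have h1 : ((Fintype.piFinset (fun _ : Fin k => A)).image
      (fun f : Fin k → ℤ => ∑ i, f i)).Nonempty :=
    (Fintype.piFinset_nonempty.2 fun _ => h).image _
  exact_mod_cast card_pos.2 h1

theorem big_of_good (k d : ℕ) (hk : 1 ≤ k) (ε c₁ : ℝ) (hε : 0 < ε) (hc₁ : 0 < c₁)
    (hF : FewH k ε c₁) (hp : ∀ q ∈ P, q.Prime) (s : X → ℤ) (e : X → P → ℕ) (A : Finset X)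
    (hs : ∀ x ∈ A, |s x| = 1) (hinj : ∀ x ∈ A, ∀ y ∈ A, s x = s y → e x = e y → x = y)
    (π : Equiv.Perm P) (hg : Good s e A k d π) (B : Finset X) (hBA : B ⊆ A) (hB : B.Nonempty)
    (hd : (d : ℝ) ≤ c₁ / 2 * Real.log B.card) :
    min (1 / (2 * (k.factorial : ℝ))) (min (c₁ / (k : ℝ) ^ (2 * k)) (1 / (k : ℝ) ^ (4 * k))) *
      (B.card : ℝ) ^ ((k : ℝ) - ε) ≤ mx k (B.image (val s e π)) := by
  have hk0 : (1 : ℝ) ≤ k := by exact_mod_cast hk
  have hN : (1 : ℝ) ≤ B.card := by exact_mod_cast card_pos.2 hB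
  have hN0 : (0 : ℝ) < B.card := by linarith
  have h0 : ∀ x ∈ A, val s e π x ≠ 0 := fun x hx => val_ne_zero hp s e π x (hs x hx)
  have hvi : ∀ x ∈ A, ∀ y ∈ A, val s e π x = val s e π y → x = y := fun x hx y hy h =>
    hinj x hx y hy (val_inj hp s e π x y (hs x hx) (hs y hy) h).1
      (val_inj hp s e π x y (hs x hx) (hs y hy) h).2
  have hone : 1 ≤ mx k (B.image (val s e π)) := one_le_mx k (hB.image _)
  have hpow0 : 0 ≤ (B.card : ℝ) ^ ((k : ℝ) - ε) := Real.rpow_nonneg hN0.le _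
  have hpowk : (B.card : ℝ) ^ ((k : ℝ) - ε) ≤ (B.card : ℝ) ^ k := by
    rw [← Real.rpow_natCast]
    exact Real.rpow_le_rpow_of_exponent_le hN (by linarith)
  have hk4 : (1 : ℝ) ≤ (k : ℝ) ^ (4 * k) := one_le_pow₀ hk0
  have hM3 : min (1 / (2 * (k.factorial : ℝ))) (min (c₁ / (k : ℝ) ^ (2 * k))
      (1 / (k : ℝ) ^ (4 * k))) ≤ 1 / (k : ℝ) ^ (4 * k) :=
    (min_le_right _ _).trans (min_le_right _ _)
  have hM2 : min (1 / (2 * (k.factorial : ℝ))) (min (c₁ / (k : ℝ) ^ (2 * k))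
      (1 / (k : ℝ) ^ (4 * k))) ≤ c₁ / (k : ℝ) ^ (2 * k) :=
    (min_le_right _ _).trans (min_le_left _ _)
  have hM1 : min (1 / (2 * (k.factorial : ℝ))) (min (c₁ / (k : ℝ) ^ (2 * k))
      (1 / (k : ℝ) ^ (4 * k))) ≤ 1 / (2 * (k.factorial : ℝ)) := min_le_left _ _
  rcases le_or_gt ((k : ℝ) - ε) 0 with hke | hke
  · -- trivial exponent
    have h1 : (B.card : ℝ) ^ ((k : ℝ) - ε) ≤ 1 :=
      Real.rpow_le_one_of_one_le_of_nonpos hN hke
    calc _ ≤ 1 / (k : ℝ) ^ (4 * k) * 1 :=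
          mul_le_mul hM3 h1 hpow0 (by positivity)
      _ ≤ 1 := by
          rw [mul_one, div_le_one (by positivity)]
          exact hk4
      _ ≤ _ := hone
  rcases lt_or_ge (B.card) (k ^ 4) with hsm | hbig
  · -- small sets
    have h1 : (B.card : ℝ) ^ k ≤ (k : ℝ) ^ (4 * k) := by
      rw [pow_mul]
      exact pow_le_pow_left₀ hN0.le (by exact_mod_cast hsm.le) k
    calc _ ≤ 1 / (k : ℝ) ^ (4 * k) * (k : ℝ) ^ (4 * k) :=
          mul_le_mul hM3 (hpowk.trans h1) hpow0 (by positivity)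
      _ = 1 := by
          rw [one_div, inv_mul_cancel₀ (by positivity)]
      _ ≤ _ := hone
  by_cases hball : ∀ a ∈ B, k ^ 2 * (B.filter fun b => ham e a b ≤ d).card ≤ B.card
  · -- all balls are small
    have h1 := far_card e B k d hk hball
    set F := (Fintype.piFinset fun _ : Fin k => B).filter
      (fun u : Fin k → X => ∀ i j, i ≠ j → d < ham e (u i) (u j)) with hFdef
    have hmem : ∀ u ∈ F, (∀ i, u i ∈ B) ∧ ∀ i j, i ≠ j → d < ham e (u i) (u j) := by
      intro u hu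
      rw [hFdef, mem_filter, Fintype.mem_piFinset] at hu
      exact hu
    have h2 := sums_card k F (val s e π) (fun u hu i j hij => by
      by_contra hne
      have := (hmem u hu).2 i j hne
      rw [hij] at this
      simp [ham] at this) (fun u hu v hv h =>
        far_inj s e A k d π hg h0 hvi u v (fun i => hBA ((hmem u hu).1 i))
          (fun i => hBA ((hmem v hv).1 i)) (hmem u hu).2 (hmem v hv).2 h)
    have h3 : F.image (fun u => ∑ i, val s e π (u i)) ⊆
        (Fintype.piFinset (fun _ : Fin k => B.image (val s e π))).image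
          (fun f : Fin k → ℤ => ∑ i, f i) := by
      intro z hz
      obtain ⟨u, hu, rfl⟩ := mem_image.1 hz
      refine mem_image.2 ⟨fun i => val s e π (u i), ?_, rfl⟩
      rw [Fintype.mem_piFinset]
      exact fun i => mem_image_of_mem _ ((hmem u hu).1 i)
    have h4 : (B.card : ℝ) ^ k ≤ 2 * (k.factorial : ℝ) * mx k (B.image (val s e π)) := by
      have h5 : B.card ^ k ≤ 2 * (k.factorial *
          ((Fintype.piFinset (fun _ : Fin k => B.image (val s e π))).image
          (fun f : Fin k → ℤ => ∑ i, f i)).card) :=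
        h1.trans (Nat.mul_le_mul_left _ (h2.trans (Nat.mul_le_mul_left _ (card_le_card h3))))
      have h6 : (B.card : ℝ) ^ k ≤ 2 * ((k.factorial : ℝ) *
          (((Fintype.piFinset (fun _ : Fin k => B.image (val s e π))).image
          (fun f : Fin k → ℤ => ∑ i, f i)).card : ℝ)) := by exact_mod_cast h5
      refine h6.trans ?_
      rw [← mul_assoc]
      refine mul_le_mul_of_nonneg_left (le_max_left _ _) (by positivity)
    have hf : (0 : ℝ) < 2 * (k.factorial : ℝ) := by positivity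
    calc _ ≤ 1 / (2 * (k.factorial : ℝ)) * (B.card : ℝ) ^ k :=
          mul_le_mul hM1 hpowk hpow0 (by positivity)
      _ ≤ 1 / (2 * (k.factorial : ℝ)) * (2 * (k.factorial : ℝ) * mx k (B.image (val s e π))) :=
          mul_le_mul_of_nonneg_left h4 (by positivity)
      _ = _ := by field_simp
  · -- a large ball
    push Not at hball
    obtain ⟨a, ha, hC⟩ := hball
    set C := B.filter fun b => ham e a b ≤ d with hCdef
    have hCB : C ⊆ B := filter_subset _ _
    have hCcard : 0 < C.card := by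
      by_contra h
      have : C.card = 0 := by omega
      rw [this] at hC
      omega
    have hC1 : (1 : ℝ) ≤ C.card := by exact_mod_cast hCcard
    have hCr : (B.card : ℝ) ≤ (k : ℝ) ^ 2 * C.card := by exact_mod_cast hC.le
    have hbigr : (k : ℝ) ^ 4 ≤ B.card := by exact_mod_cast hbig
    have hsq : (B.card : ℝ) ≤ (C.card : ℝ) ^ 2 := by
      have h1 : (B.card : ℝ) * B.card ≤ ((k : ℝ) ^ 2 * C.card) * ((k : ℝ) ^ 2 * C.card) :=
        mul_le_mul hCr hCr hN0.le (by positivity)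
      have h2 : (k : ℝ) ^ 4 * B.card ≤ (B.card : ℝ) * B.card :=
        mul_le_mul_of_nonneg_right hbigr hN0.le
      have h3 : (k : ℝ) ^ 4 * B.card ≤ (k : ℝ) ^ 4 * (C.card : ℝ) ^ 2 := by
        calc (k : ℝ) ^ 4 * B.card ≤ ((k : ℝ) ^ 2 * C.card) * ((k : ℝ) ^ 2 * C.card) := h2.trans h1
          _ = (k : ℝ) ^ 4 * (C.card : ℝ) ^ 2 := by ring
      exact le_of_mul_le_mul_left h3 (by positivity)
    have hlog : Real.log B.card ≤ 2 * Real.log C.card := by
      calc Real.log B.card ≤ Real.log ((C.card : ℝ) ^ 2) := Real.log_le_log hN0 hsq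
        _ = 2 * Real.log C.card := by rw [Real.log_pow]; norm_num
    have hdC : (d : ℝ) ≤ c₁ * Real.log C.card := by
      calc (d : ℝ) ≤ c₁ / 2 * Real.log B.card := hd
        _ ≤ c₁ / 2 * (2 * Real.log C.card) := mul_le_mul_of_nonneg_left hlog (by positivity)
        _ = c₁ * Real.log C.card := by ring
    have hCi : (C.image (val s e π)).card = C.card :=
      card_image_of_injOn fun x hx y hy h => hvi x (hBA (hCB hx)) y (hBA (hCB hy)) h
    have hmain := hF (C.image (val s e π)) ((card_pos.1 hCcard).image _) (val s e π a)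
      (h0 a (hBA ha)) (fun x hx T hT => by
        obtain ⟨b, hb, rfl⟩ := mem_image.1 hx
        rw [hCi]
        have h1 := act_card hp s e π a b (hs a (hBA ha)) (hs b (hBA (hCB hb))) T hT
        have h2 : ham e a b ≤ d := (mem_filter.1 hb).2
        exact le_trans (by exact_mod_cast h1.trans h2) hdC)
    rw [hCi] at hmain
    have hle : (B.card : ℝ) ^ ((k : ℝ) - ε) ≤ (k : ℝ) ^ (2 * k) * (C.card : ℝ) ^ ((k : ℝ) - ε) := by
      calc (B.card : ℝ) ^ ((k : ℝ) - ε) ≤ ((k : ℝ) ^ 2 * C.card) ^ ((k : ℝ) - ε) :=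
            Real.rpow_le_rpow hN0.le hCr hke.le
        _ = ((k : ℝ) ^ 2) ^ ((k : ℝ) - ε) * (C.card : ℝ) ^ ((k : ℝ) - ε) :=
            Real.mul_rpow (by positivity) (by positivity)
        _ ≤ (k : ℝ) ^ (2 * k) * (C.card : ℝ) ^ ((k : ℝ) - ε) := by
            refine mul_le_mul_of_nonneg_right ?_ (Real.rpow_nonneg (by positivity) _)
            calc ((k : ℝ) ^ 2) ^ ((k : ℝ) - ε) ≤ ((k : ℝ) ^ 2) ^ (k : ℝ) :=
                  Real.rpow_le_rpow_of_exponent_le (one_le_pow₀ hk0) (by linarith)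
              _ = (k : ℝ) ^ (2 * k) := by rw [Real.rpow_natCast, ← pow_mul]
    calc _ ≤ c₁ / (k : ℝ) ^ (2 * k) * ((k : ℝ) ^ (2 * k) * (C.card : ℝ) ^ ((k : ℝ) - ε)) :=
          mul_le_mul hM2 hle hpow0 (by positivity)
      _ = c₁ * (C.card : ℝ) ^ ((k : ℝ) - ε) := by
          rw [← mul_assoc, div_mul_cancel₀ _ (by positivity)]
      _ ≤ mx k (C.image (val s e π)) := hmain
      _ ≤ _ := mx_mono k (image_subset_image hCB)

end Pool.Agent.Helper88.GP
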