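import Pool.Agent.Helper88.GP.Defs

set_option autoImplicit false

/-!
# GP-Count: counting permutations by switching

`C` = complement of `D`, `m = |C|`, `r = |T| ≤ m`. For an injection `c : T ↪ C` let `h_c` be the
involution of `α` that exchanges `t` and `c t` for `t ∈ T` and fixes everything else; it fixes
`D \ T` pointwise, so `V (π * h_c) = V π`. For fixed `π` the number of `c` with `Bad (π * h_c)` is
at most `W ^ r`: then `π (c t) = (π * h_c) t ∈ V π`, so `c t` lies in the preimage of `V π`, which
has at most `W` elements (a function `T → V π` determines `c`). Double counting: with `i` the number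
of injections, `#Bad * i = ∑_c #{π : Bad (π * h_c)} = ∑_π #{c : Bad (π * h_c)} ≤ |α|! W ^ r`, and
`i = m.descFactorial r ≥ (m - r) ^ r` (`Nat.pow_sub_le_descFactorial` or
`Nat.pow_sub_lt_descFactorial`, `Fintype.card_embedding_eq`).
-/

open Finset

namespace Pool.Agent.Helper88.GP

open Classical in
theorem perm_count {α : Type*} [Fintype α] [DecidableEq α] (T D : Finset α) (hTD : T ⊆ D)
    (hc : D.card + T.card ≤ Fintype.card α) (Bad : Equiv.Perm α → Prop)
    (V : Equiv.Perm α → Finset α) (W : ℕ) (hW : ∀ π, (V π).card ≤ W)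
    (hV : ∀ π π' : Equiv.Perm α, (∀ x ∈ D, x ∉ T → π x = π' x) → V π = V π')
    (hB : ∀ π, Bad π → ∀ x ∈ T, π x ∈ V π) :
    (univ.filter fun π : Equiv.Perm α => Bad π).card *
        (Fintype.card α - D.card - T.card) ^ T.card ≤
      W ^ T.card * (Fintype.card α).factorial := by
  have hex : ∀ c : T ↪ (Dᶜ : Finset α), ∃ h : Equiv.Perm α, (∀ t : T, h t = (c t : α)) ∧
      ∀ x ∈ D, x ∉ T → h x = x := by
    intro c
    have hcD : ∀ t : T, (c t : α) ∉ D := fun t => Finset.mem_compl.1 (c t).2
    let f : {x // x ∈ D} → α := fun x => if hx : (x : α) ∈ T then (c ⟨x, hx⟩ : α) else x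
    have hf1 : ∀ (x : {x // x ∈ D}) (hx : (x : α) ∈ T), f x = (c ⟨x, hx⟩ : α) :=
      fun x hx => dif_pos hx
    have hf2 : ∀ (x : {x // x ∈ D}) (_ : (x : α) ∉ T), f x = x := fun x hx => dif_neg hx
    have hf : Function.Injective f := by
      intro x y hxy
      by_cases hx : (x : α) ∈ T
      · by_cases hy : (y : α) ∈ T
        · rw [hf1 x hx, hf1 y hy] at hxy
          have h2 := c.injective (Subtype.ext hxy)
          exact Subtype.ext (congrArg (fun z : T => (z : α)) h2)
        · rw [hf1 x hx, hf2 y hy] at hxy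
          exact absurd (hxy ▸ y.2) (hcD _)
      · by_cases hy : (y : α) ∈ T
        · rw [hf2 x hx, hf1 y hy] at hxy
          exact absurd (hxy ▸ x.2) (hcD _)
        · rw [hf2 x hx, hf2 y hy] at hxy
          exact Subtype.ext hxy
    let e : {x // x ∈ D} ≃ {y // y ∈ Set.range f} := Equiv.ofInjective f hf
    have he : ∀ x (hx : x ∈ D), e.extendSubtype x = f ⟨x, hx⟩ := by
      intro x hx
      rw [Equiv.extendSubtype_apply_of_mem e x hx]
      rfl
    refine ⟨e.extendSubtype, fun t => ?_, fun x hx hxT => ?_⟩
    · rw [he t (hTD t.2), hf1 ⟨t, hTD t.2⟩ t.2]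
    · rw [he x hx, hf2 ⟨x, hx⟩ hxT]
  choose h hT hDT using hex
  have key1 : ∀ c : T ↪ (Dᶜ : Finset α),
      (univ.filter fun π : Equiv.Perm α => Bad (π * h c)).card =
        (univ.filter fun π : Equiv.Perm α => Bad π).card := fun c =>
    Finset.card_equiv (Equiv.mulRight (h c)) (by simp)
  have key2 : ∀ π : Equiv.Perm α,
      (univ.filter fun c : T ↪ (Dᶜ : Finset α) => Bad (π * h c)).card ≤ W ^ T.card := by
    intro π
    have hVc : ∀ c, V (π * h c) = V π := fun c =>
      hV _ _ fun x hx hxT => by rw [Equiv.Perm.mul_apply, hDT c x hx hxT]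
    have h1 : (univ.filter fun c : T ↪ (Dᶜ : Finset α) => Bad (π * h c)).card ≤
        (Fintype.piFinset fun _ : T => V π).card := by
      refine Finset.card_le_card_of_injOn (fun c t => π (c t)) ?_ ?_
      · intro c hc'
        have hbad : Bad (π * h c) := (Finset.mem_filter.1 hc').2
        refine Fintype.mem_piFinset.2 fun t => ?_
        have h2 := hB _ hbad t t.2
        rw [hVc c, Equiv.Perm.mul_apply, hT c t] at h2
        exact h2
      · intro c _ c' _ hcc
        refine DFunLike.ext _ _ fun t => ?_
        have h2 : π (c t) = π (c' t) := congrFun hcc t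
        exact Subtype.ext (π.injective h2)
    refine h1.trans ?_
    rw [Fintype.card_piFinset, Finset.prod_const, Finset.card_univ, Fintype.card_coe]
    exact Nat.pow_le_pow_left (hW π) _
  have hdc : Fintype.card (T ↪ (Dᶜ : Finset α)) *
      (univ.filter fun π : Equiv.Perm α => Bad π).card ≤
        (Fintype.card α).factorial * W ^ T.card := by
    calc Fintype.card (T ↪ (Dᶜ : Finset α)) *
          (univ.filter fun π : Equiv.Perm α => Bad π).card =
          ∑ c : T ↪ (Dᶜ : Finset α), (univ.filter fun π : Equiv.Perm α => Bad (π * h c)).card := by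
          rw [Finset.sum_congr rfl fun c _ => key1 c, Finset.sum_const, Finset.card_univ,
            smul_eq_mul]
      _ = ∑ π : Equiv.Perm α,
          (univ.filter fun c : T ↪ (Dᶜ : Finset α) => Bad (π * h c)).card := by
          simp_rw [Finset.card_filter]
          exact Finset.sum_comm
      _ ≤ ∑ _π : Equiv.Perm α, W ^ T.card := Finset.sum_le_sum fun π _ => key2 π
      _ = (Fintype.card α).factorial * W ^ T.card := by
          rw [Finset.sum_const, Finset.card_univ, Fintype.card_perm, smul_eq_mul]
  have hcard : (Fintype.card α - D.card - T.card) ^ T.card ≤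
      Fintype.card (T ↪ (Dᶜ : Finset α)) := by
    rw [Fintype.card_embedding_eq, Fintype.card_coe, Fintype.card_coe, Finset.card_compl]
    refine le_trans (Nat.pow_le_pow_left ?_ _) (Nat.pow_sub_le_descFactorial _ _)
    omega
  calc (univ.filter fun π : Equiv.Perm α => Bad π).card *
        (Fintype.card α - D.card - T.card) ^ T.card ≤
        (univ.filter fun π : Equiv.Perm α => Bad π).card *
          Fintype.card (T ↪ (Dᶜ : Finset α)) := Nat.mul_le_mul_left _ hcard
    _ = Fintype.card (T ↪ (Dᶜ : Finset α)) *
          (univ.filter fun π : Equiv.Perm α => Bad π).card := Nat.mul_comm _ _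
    _ ≤ (Fintype.card α).factorial * W ^ T.card := hdc
    _ = W ^ T.card * (Fintype.card α).factorial := Nat.mul_comm _ _

end Pool.Agent.Helper88.GP
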