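import Mathlib

set_option autoImplicit false

/-!
# Project GP (MP_120218_co): Q1 for almost all relabellings of the primes of a finite set

`X` is a type of labels of non-zero integers: `s x` is the sign and `e x` the exponent vector (over
the primes of the finite set `P`) of the number with label `x`. A permutation `π` of `P` sends it
to `val s e π x = s x * ∏ q, (π q) ^ (e x q)`.
-/

open Finset

namespace Pool.Agent.Helper88.GP

variable {X : Type*} [DecidableEq X] {P : Finset ℕ}

/-- the number with sign `s x` and exponent vector `e x`, its primes being permuted by `π` -/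
def val (s : X → ℤ) (e : X → P → ℕ) (π : Equiv.Perm P) (x : X) : ℤ :=
  s x * ∏ q : P, ((π q : ℕ) : ℤ) ^ e x q

/-- the number of primes at which the exponents differ -/
def ham (e : X → P → ℕ) (x y : X) : ℕ := (univ.filter fun q : P => e x q ≠ e y q).card

/-- the primes at which the exponents of the elements of `R` are not all equal -/
def supp (e : X → P → ℕ) (R : Finset X) : Finset P :=
  univ.filter fun q => ∃ x ∈ R, ∃ y ∈ R, e x q ≠ e y q

/-- the relation `∑ m x * val x = 0` on `R`, without vanishing proper subsums -/
def MinRel (s : X → ℤ) (e : X → P → ℕ) (π : Equiv.Perm P) (m : X → ℤ) (R : Finset X) : Prop :=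
  R.Nonempty ∧ ∑ x ∈ R, m x * val s e π x = 0 ∧
    ∀ S ⊆ R, S.Nonempty → S ≠ R → ∑ x ∈ S, m x * val s e π x ≠ 0

/-- the coefficients of the relation between the sums of two tuples -/
def cf {k : ℕ} (u v : Fin k → X) (x : X) : ℤ :=
  ((univ.filter fun i => u i = x).card : ℤ) - ((univ.filter fun i => v i = x).card : ℤ)

/-- every relation without vanishing proper subsum, that is part of the relation between the sums of
two `k`-tuples of elements of `A`, lives on at most `d` primes -/
def Good (s : X → ℤ) (e : X → P → ℕ) (A : Finset X) (k d : ℕ) (π : Equiv.Perm P) : Prop :=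
  ∀ u v : Fin k → X, (∀ i, u i ∈ A) → (∀ i, v i ∈ A) →
    ∀ R ⊆ univ.image u ∪ univ.image v, MinRel s e π (cf u v) R → (supp e R).card ≤ d

end Pool.Agent.Helper88.GP
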