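import Pool.Agent.Helper88.GP.Defs

set_option autoImplicit false

/-!
# GP-Div: few primes of `P` divide a given integer

Let `n = |P|`, `r = Nat.sqrt n`. At most `r` primes `q ∈ P` with `q ∣ Y` are `≤ r` (they are in
`Icc 1 r`). Let `J` be the set of the others, `j = |J|`: `∏ q ∈ J, q` divides `Y` (distinct primes,
`Finset.prod_primes_dvd` on `Y.natAbs`), so `(r + 1) ^ j ≤ |Y|`, and `n < (r + 1) ^ 2`
(`Nat.lt_succ_sqrt'`), so `n ^ j ≤ (r + 1) ^ (2 j) ≤ |Y| ^ 2 ≤ n ^ (2 + 2 M L)`; as `2 ≤ n`,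
`j ≤ 2 M L + 2` (`Nat.pow_le_pow_iff_right`).
-/

open Finset

namespace Pool.Agent.Helper88.GP

theorem div_count (P : Finset ℕ) (M L : ℕ) (h2 : 2 ≤ P.card) (hp : ∀ q ∈ P, q.Prime) (Y : ℤ)
    (hY : Y ≠ 0) (hb : |Y| ≤ (P.card : ℤ) * ((P.card : ℤ) ^ M) ^ L) :
    (P.filter fun q : ℕ => (q : ℤ) ∣ Y).card ≤ Nat.sqrt P.card + (2 * M * L + 2) := by
  classical
  set n := P.card with hn
  set r := Nat.sqrt n with hr
  set A := P.filter fun q : ℕ => (q : ℤ) ∣ Y with hA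
  have hsplit : A.card = (A.filter fun q => q ≤ r).card + (A.filter fun q => ¬ q ≤ r).card :=
    (Finset.card_filter_add_card_filter_not (s := A) (fun q => q ≤ r)).symm
  have h1 : (A.filter fun q => q ≤ r).card ≤ r := by
    have hsub : (A.filter fun q => q ≤ r) ⊆ Finset.Icc 1 r := by
      intro q hq
      rw [Finset.mem_filter] at hq
      have hqP : q ∈ P := (Finset.mem_filter.1 hq.1).1
      exact Finset.mem_Icc.2 ⟨(hp q hqP).pos, hq.2⟩
    have := Finset.card_le_card hsub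
    rwa [Nat.card_Icc, Nat.add_sub_cancel] at this
  set J := A.filter fun q => ¬ q ≤ r with hJ
  have hJm : ∀ q ∈ J, q ∈ P ∧ (q : ℤ) ∣ Y ∧ r + 1 ≤ q := by
    intro q hq
    rw [hJ, Finset.mem_filter] at hq
    have h3 := Finset.mem_filter.1 hq.1
    exact ⟨h3.1, h3.2, by omega⟩
  have hdvd : ∏ q ∈ J, q ∣ Y.natAbs := by
    refine Finset.prod_primes_dvd _ (fun q hq => (hp q (hJm q hq).1).prime) fun q hq => ?_
    exact Int.natCast_dvd.1 (hJm q hq).2.1
  have hpos : 0 < Y.natAbs := Int.natAbs_pos.2 hY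
  have h4 : (r + 1) ^ J.card ≤ Y.natAbs := by
    calc (r + 1) ^ J.card = ∏ _q ∈ J, (r + 1) := by rw [Finset.prod_const]
      _ ≤ ∏ q ∈ J, q := Finset.prod_le_prod' fun q hq => (hJm q hq).2.2
      _ ≤ Y.natAbs := Nat.le_of_dvd hpos hdvd
  have h5 : Y.natAbs ≤ n * (n ^ M) ^ L := by
    zify
    exact hb
  have h6 : n < (r + 1) ^ 2 := Nat.lt_succ_sqrt' n
  have h7 : n ^ J.card ≤ n ^ (2 * M * L + 2) := by
    calc n ^ J.card ≤ ((r + 1) ^ 2) ^ J.card := Nat.pow_le_pow_left h6.le _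
      _ = ((r + 1) ^ J.card) ^ 2 := by rw [← pow_mul, ← pow_mul, mul_comm]
      _ ≤ (n * (n ^ M) ^ L) ^ 2 := Nat.pow_le_pow_left (h4.trans h5) 2
      _ = n ^ (2 * M * L + 2) := by
        rw [← pow_mul, ← pow_succ', ← pow_mul]
        congr 1
        ring
  have h8 : J.card ≤ 2 * M * L + 2 := (Nat.pow_le_pow_iff_right (by omega)).1 h7
  omega

end Pool.Agent.Helper88.GP
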