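import Pool.Agent.Helper88.GP.Defs

set_option autoImplicit false

/-!
# GP-Inj: sums of far tuples are different

Let `w x = cf u v x * val s e π x`. `∑ i, val (u i) = ∑ i, val (v i)` says `∑ x ∈ R₀, w x = 0` for
`R₀ = (image u ∪ image v).filter (cf u v x ≠ 0)` (sum over fibres). Suppose `R₀` is not empty. Among
the non-empty subsets of `R₀` with `∑ w = 0` take one, `R`, that is minimal for inclusion (or of
minimal cardinality): it is `MinRel`, so `|supp e R| ≤ d`, and any two `x, y ∈ R` have
`ham e x y ≤ |supp e R| ≤ d`. As `u` is far, at most one element of `R` is in the image of `u`, and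
the same for `v`. `u`, `v` are injective (far: `ham e x x = 0`, so `d < 0` is impossible), hence
`cf u v x ∈ {1, 0, -1}` and `≠ 0` on `R`: an element of `R` in the image of `u` is not in the image of
`v`. `R = {x}`: `w x = 0` contradicts `val ≠ 0`. `R = {x, y}` with `x` in the image of `u`, `y` in
that of `v`: `val x = val y`, so `x = y` by `hinj`, contradiction. So `R₀ = ∅`: `cf u v = 0`, and the
images coincide.
-/

open Finset

namespace Pool.Agent.Helper88.GP

variable {X : Type*} [DecidableEq X] {P : Finset ℕ}

theorem far_inj (s : X → ℤ) (e : X → P → ℕ) (A : Finset X) (k d : ℕ) (π : Equiv.Perm P)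
    (hg : Good s e A k d π) (h0 : ∀ x ∈ A, val s e π x ≠ 0)
    (hinj : ∀ x ∈ A, ∀ y ∈ A, val s e π x = val s e π y → x = y)
    (u v : Fin k → X) (hu : ∀ i, u i ∈ A) (hv : ∀ i, v i ∈ A)
    (fu : ∀ i j, i ≠ j → d < ham e (u i) (u j)) (fv : ∀ i j, i ≠ j → d < ham e (v i) (v j))
    (h : ∑ i, val s e π (u i) = ∑ i, val s e π (v i)) : univ.image u = univ.image v := by
  classical
  have injOf : ∀ w : Fin k → X, (∀ i j, i ≠ j → d < ham e (w i) (w j)) →
      Function.Injective w := by
    intro w fw i j hij
    by_contra hne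
    have := fw i j hne
    rw [hij] at this
    simp [ham] at this
  have iu := injOf u fu
  have iv := injOf v fv
  have cnt : ∀ w : Fin k → X, Function.Injective w → ∀ x,
      (univ.filter fun i => w i = x).card = if x ∈ univ.image w then 1 else 0 := by
    intro w iw x
    split_ifs with hx
    · obtain ⟨i, -, rfl⟩ := mem_image.1 hx
      rw [card_eq_one]
      refine ⟨i, ?_⟩
      ext j
      simp [iw.eq_iff]
    · rw [card_eq_zero, filter_eq_empty_iff]
      intro i _ hi
      exact hx (mem_image.2 ⟨i, mem_univ _, hi⟩)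
  have hcf : ∀ x, cf u v x = (if x ∈ univ.image u then 1 else 0) -
      (if x ∈ univ.image v then 1 else 0) := by
    intro x
    unfold cf
    rw [cnt u iu x, cnt v iv x]
    push_cast
    rfl
  have key : ∀ w : Fin k → X, ∀ T : Finset X, univ.image w ⊆ T →
      ∑ i, val s e π (w i) =
        ∑ x ∈ T, ((univ.filter fun i => w i = x).card : ℤ) * val s e π x := by
    intro w T hT
    rw [← sum_fiberwise_of_maps_to (s := univ) (t := T) (g := w)
      (fun i _ => hT (mem_image_of_mem _ (mem_univ _)))]
    refine sum_congr rfl fun x _ => ?_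
    have h1 : ∀ i ∈ univ.filter (fun i => w i = x), val s e π (w i) = val s e π x := by
      intro i hi
      rw [(mem_filter.1 hi).2]
    rw [sum_congr rfl h1]
    simp
  have hTA : ∀ x ∈ univ.image u ∪ univ.image v, x ∈ A := by
    intro x hx
    rcases mem_union.1 hx with hx | hx
    · obtain ⟨i, -, rfl⟩ := mem_image.1 hx
      exact hu i
    · obtain ⟨i, -, rfl⟩ := mem_image.1 hx
      exact hv i
  have hsum : ∑ x ∈ univ.image u ∪ univ.image v, cf u v x * val s e π x = 0 := by
    have h1 := key u (univ.image u ∪ univ.image v) subset_union_left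
    have h2 := key v (univ.image u ∪ univ.image v) subset_union_right
    simp only [cf, sub_mul, sum_sub_distrib]
    rw [← h1, ← h2, h, sub_self]
  have hsum0 : ∑ x ∈ (univ.image u ∪ univ.image v).filter (fun x => cf u v x ≠ 0),
      cf u v x * val s e π x = 0 := by
    rw [sum_filter_of_ne]
    · exact hsum
    · intro x _ hx hc
      exact hx (by rw [hc, zero_mul])
  have hempty : (univ.image u ∪ univ.image v).filter (fun x => cf u v x ≠ 0) = ∅ := by
    by_contra hne
    obtain ⟨R, hR, hmin⟩ := exists_min_image
      (((univ.image u ∪ univ.image v).filter (fun x => cf u v x ≠ 0)).powerset.filter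
        (fun S => S.Nonempty ∧ ∑ x ∈ S, cf u v x * val s e π x = 0)) card
      ⟨(univ.image u ∪ univ.image v).filter (fun x => cf u v x ≠ 0),
        mem_filter.2 ⟨mem_powerset.2 (Subset.refl _),
          nonempty_iff_ne_empty.2 hne, hsum0⟩⟩
    rw [mem_filter, mem_powerset] at hR
    obtain ⟨hRsub, hRne, hRsum⟩ := hR
    have hRT : R ⊆ univ.image u ∪ univ.image v := fun x hx => (mem_filter.1 (hRsub hx)).1
    have hRc : ∀ x ∈ R, cf u v x ≠ 0 := fun x hx => (mem_filter.1 (hRsub hx)).2
    have hMin : MinRel s e π (cf u v) R := by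
      refine ⟨hRne, hRsum, ?_⟩
      intro S hS hSne hSR hSsum
      have h1 := hmin S (mem_filter.2 ⟨mem_powerset.2 (hS.trans hRsub), hSne, hSsum⟩)
      exact hSR (eq_of_subset_of_card_le hS h1)
    have hcard := hg u v hu hv R hRT hMin
    have hham : ∀ x ∈ R, ∀ y ∈ R, ham e x y ≤ d := by
      intro x hx y hy
      refine le_trans (card_le_card ?_) hcard
      intro q hq
      simp only [supp, mem_filter, mem_univ, true_and] at hq ⊢
      exact ⟨x, hx, y, hy, hq⟩
    have hone : ∀ w : Fin k → X, (∀ i j, i ≠ j → d < ham e (w i) (w j)) →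
        ∀ x ∈ R, ∀ y ∈ R, x ∈ univ.image w → y ∈ univ.image w → x = y := by
      intro w fw x hx y hy hxw hyw
      obtain ⟨i, -, rfl⟩ := mem_image.1 hxw
      obtain ⟨j, -, rfl⟩ := mem_image.1 hyw
      by_contra hxy
      have h1 := fw i j (fun hij => hxy (by rw [hij]))
      have h2 := hham _ hx _ hy
      omega
    -- the two kinds of elements of `R`
    have hkind : ∀ x ∈ R, (x ∈ univ.image u ∧ x ∉ univ.image v ∧ cf u v x = 1) ∨
        (x ∈ univ.image v ∧ x ∉ univ.image u ∧ cf u v x = -1) := by
      intro x hx
      have hc := hRc x hx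
      have hc' := hcf x
      by_cases h1 : x ∈ univ.image u
      · by_cases h2 : x ∈ univ.image v
        · rw [if_pos h1, if_pos h2] at hc'
          exact absurd (by rw [hc']; norm_num) hc
        · rw [if_pos h1, if_neg h2] at hc'
          exact Or.inl ⟨h1, h2, by rw [hc']; norm_num⟩
      · by_cases h2 : x ∈ univ.image v
        · rw [if_neg h1, if_pos h2] at hc'
          exact Or.inr ⟨h2, h1, by rw [hc']; norm_num⟩
        · rw [if_neg h1, if_neg h2] at hc'
          exact absurd (by rw [hc']; norm_num) hc
    -- an element of the image of `u` and an element of the image of `v` in `R`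
    have hpair : ∀ x ∈ R, ∀ y ∈ R, x ∈ univ.image u → cf u v x = 1 →
        y ∈ univ.image v → cf u v y = -1 → x ≠ y → False := by
      intro x hx y hy hxu hxc hyv hyc hxy
      have hReq : R = {x, y} := by
        ext z
        rw [mem_insert, mem_singleton]
        constructor
        · intro hz
          rcases hkind z hz with ⟨hzu, -, -⟩ | ⟨hzv, -, -⟩
          · exact Or.inl (hone u fu z hz x hx hzu hxu)
          · exact Or.inr (hone v fv z hz y hy hzv hyv)
        · rintro (rfl | rfl)
          · exact hx
          · exact hy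
      rw [hReq, sum_pair hxy, hxc, hyc] at hRsum
      exact hxy (hinj x (hTA x (hRT hx)) y (hTA y (hRT hy)) (by linarith))
    obtain ⟨x, hx⟩ := hRne
    by_cases hsing : ∃ y ∈ R, x ≠ y
    · obtain ⟨y, hy, hxy⟩ := hsing
      rcases hkind x hx with ⟨hxu, -, hxc⟩ | ⟨hxv, -, hxc⟩
      · rcases hkind y hy with ⟨hyu, -, hyc⟩ | ⟨hyv, -, hyc⟩
        · exact hxy (hone u fu x hx y hy hxu hyu)
        · exact hpair x hx y hy hxu hxc hyv hyc hxy
      · rcases hkind y hy with ⟨hyu, -, hyc⟩ | ⟨hyv, -, hyc⟩
        · exact hpair y hy x hx hyu hyc hxv hxc (Ne.symm hxy)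
        · exact hxy (hone v fv x hx y hy hxv hyv)
    · have hReq : R = {x} := by
        ext z
        rw [mem_singleton]
        constructor
        · intro hz
          by_contra hzx
          exact hsing ⟨z, hz, fun hh => hzx hh.symm⟩
        · rintro rfl
          exact hx
      have hv0 := h0 x (hTA x (hRT hx))
      have hc0 := hRc x hx
      rw [hReq, sum_singleton] at hRsum
      exact (mul_ne_zero hc0 hv0) hRsum
  have hzero : ∀ x ∈ univ.image u ∪ univ.image v, cf u v x = 0 := by
    intro x hx
    by_contra hc
    have : x ∈ (univ.image u ∪ univ.image v).filter (fun x => cf u v x ≠ 0) :=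
      mem_filter.2 ⟨hx, hc⟩
    rw [hempty] at this
    simp at this
  ext x
  constructor
  · intro hx
    have h1 := hzero x (mem_union_left _ hx)
    by_contra h2
    rw [hcf x, if_pos hx, if_neg h2] at h1
    norm_num at h1
  · intro hx
    have h1 := hzero x (mem_union_right _ hx)
    by_contra h2
    rw [hcf x, if_neg h2, if_pos hx] at h1
    norm_num at h1

end Pool.Agent.Helper88.GP
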