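import Pool.Agent.Helper88.GP.Defs

set_option autoImplicit false

/-!
# GP-Int: integers as labels

`sg a = Int.sign a`, `ex P a q = padicValNat q |a|`, so that `val sg (ex P) π a = rel P π a`.
`ex_sum`: `∑ q : P, padicValNat q n ≤ n.primeFactorsList.length` (`Nat.primeFactorsList_count_eq`,
`Nat.factorization`, the list length is the sum of its counts over any finite set containing its
elements; for a smaller set it is at most that). `ex_inj`: if all prime factors of `a` and `b` are in
`P` and signs and exponents agree then `a = b` (`Nat.eq_of_factorization_eq`). `unit_of_length`: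
`primeFactorsList.length = 0` and `a ≠ 0` give `a = 1` or `a = -1`.
-/

open Finset

namespace Pool.Agent.Helper88.GP

/-- the exponent of `q` in `a` -/
def ex (P : Finset ℕ) (a : ℤ) (q : P) : ℕ := padicValNat (q : ℕ) a.natAbs

/-- the integer `a` with its primes (in `P`) permuted by `π` -/
def rel (P : Finset ℕ) (π : Equiv.Perm P) (a : ℤ) : ℤ :=
  a.sign * ∏ q : P, ((π q : ℕ) : ℤ) ^ padicValNat (q : ℕ) a.natAbs

theorem rel_eq_val (P : Finset ℕ) (π : Equiv.Perm P) (a : ℤ) :
    rel P π a = val Int.sign (ex P) π a := by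
  rfl

theorem ex_sum (P : Finset ℕ) (hp : ∀ q ∈ P, q.Prime) (a : ℤ) (ha : a ≠ 0) :
    ∑ q, ex P a q ≤ a.natAbs.primeFactorsList.length := by
  classical
  set l := a.natAbs.primeFactorsList with hl
  have h1 : ∑ q, ex P a q = ∑ q ∈ P, l.count q := by
    rw [← Finset.sum_coe_sort P (fun q => l.count q)]
    refine Finset.sum_congr rfl fun q _ => ?_
    unfold ex
    rw [hl, Nat.primeFactorsList_count_eq, Nat.factorization_def _ (hp q q.2)]
  have h2 : ∑ q ∈ P, l.count q ≤ ∑ q ∈ P ∪ l.toFinset, l.count q :=
    Finset.sum_le_sum_of_subset Finset.subset_union_left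
  have h3 : ∑ q ∈ P ∪ l.toFinset, l.count q = ∑ q ∈ l.toFinset, l.count q := by
    symm
    refine Finset.sum_subset Finset.subset_union_right fun q _ hq => ?_
    rw [List.count_eq_zero]
    exact fun h => hq (List.mem_toFinset.2 h)
  rw [h1]
  refine le_trans h2 (le_of_eq ?_)
  rw [h3]
  exact List.sum_toFinset_count_eq_length l

theorem ex_inj (P : Finset ℕ) (a b : ℤ) (ha : a ≠ 0) (hb : b ≠ 0)
    (haP : a.natAbs.primeFactors ⊆ P) (hbP : b.natAbs.primeFactors ⊆ P) (hs : a.sign = b.sign)
    (he : ex P a = ex P b) : a = b := by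
  have key : a.natAbs = b.natAbs := by
    refine Nat.eq_of_factorization_eq (Int.natAbs_ne_zero.2 ha) (Int.natAbs_ne_zero.2 hb) ?_
    intro p
    by_cases hpp : p.Prime
    · by_cases hpP : p ∈ P
      · rw [Nat.factorization_def _ hpp, Nat.factorization_def _ hpp]
        exact congrFun he ⟨p, hpP⟩
      · have h1 : p ∉ a.natAbs.primeFactors := fun h => hpP (haP h)
        have h2 : p ∉ b.natAbs.primeFactors := fun h => hpP (hbP h)
        rw [← Nat.support_factorization, Finsupp.notMem_support_iff] at h1 h2
        rw [h1, h2]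
    · rw [Nat.factorization_eq_zero_of_not_prime _ hpp,
        Nat.factorization_eq_zero_of_not_prime _ hpp]
  rw [← Int.sign_mul_natAbs a, ← Int.sign_mul_natAbs b, hs, key]

theorem unit_of_length (a : ℤ) (ha : a ≠ 0) (h : a.natAbs.primeFactorsList.length = 0) :
    a = 1 ∨ a = -1 := by
  have h1 : a.natAbs.primeFactorsList = [] := List.length_eq_zero_iff.1 h
  have h2 : a.natAbs ≠ 0 := Int.natAbs_ne_zero.2 ha
  have h3 : a.natAbs = 1 := by
    rcases (Nat.primeFactorsList_eq_nil _).1 h1 with h | h
    · exact absurd h h2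
    · exact h
  omega

end Pool.Agent.Helper88.GP
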