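import Mathlib

set_option autoImplicit false

/-!
# GP-Num: choice of the parameters

`ρ = exp (-(4 ^ k (4 k + K)) / δ)`, `n₀ = max (64 / ρ ^ 2) (max (16 / ρ) (2 k))` and
`c = min (1 / n₀) (min (ρ / (16 M + 16)) (1 / (16 k)))`. If `1 ≤ L ≤ c n` then `n ≥ n₀`, and
`2 sqrt n ≤ ρ n / 4`, `4 M L ≤ ρ n / 4`, `4 ≤ ρ n / 4`. For `N ≥ 2`: `⌊δ log N⌋ + 1 ≥ δ log N`, so
`ρ ^ (..) ≤ exp (-(4 k + K) log N)`, and `4 ^ k = exp (2 k log 2) ≤ N ^ (2 k)`.
-/

namespace Pool.Agent.Helper88.GP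

theorem params (k M K : ℕ) (hk : 1 ≤ k) (δ : ℝ) (hδ : 0 < δ) : ∃ c ρ : ℝ, 0 < c ∧ 0 < ρ ∧ ρ ≤ 1 ∧
    ∀ n L : ℕ, (L : ℝ) ≤ c * n → 1 ≤ L → 16 * k * L ≤ n ∧ 2 * k ≤ n ∧
      2 * ((Nat.sqrt n + (2 * M * L + 2) : ℕ) : ℝ) ≤ ρ * n ∧
      ∀ N : ℕ, 2 ≤ N →
        (N : ℝ) ^ (2 * k) * 4 ^ k * ρ ^ (((⌊δ * Real.log N⌋₊ : ℝ) + 1) / 4 ^ k) * (N : ℝ) ^ K ≤ 1 := by
  set E : ℝ := 4 ^ k * (4 * (k : ℝ) + K) / δ with hE
  have hk0 : (1 : ℝ) ≤ (k : ℝ) := by exact_mod_cast hk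
  have hE0 : 0 ≤ E := by positivity
  set ρ : ℝ := Real.exp (-E) with hρ
  have hρ0 : 0 < ρ := Real.exp_pos _
  have hρ1 : ρ ≤ 1 := Real.exp_le_one_iff.2 (by linarith)
  set n₀ : ℝ := 64 / ρ ^ 2 + 16 / ρ + 2 * k with hn₀
  have hn₀p : 0 < n₀ := by positivity
  set c : ℝ := min (1 / n₀) (min (ρ / (16 * M + 16)) (1 / (16 * k))) with hc
  have hc0 : 0 < c := by
    refine lt_min (by positivity) (lt_min (by positivity) (by positivity))
  refine ⟨c, ρ, hc0, hρ0, hρ1, ?_⟩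
  intro n L hL hL1
  have hn0 : (0 : ℝ) ≤ n := Nat.cast_nonneg n
  have hL1' : (1 : ℝ) ≤ L := by exact_mod_cast hL1
  have h1 : (L : ℝ) ≤ 1 / n₀ * n := hL.trans (mul_le_mul_of_nonneg_right (min_le_left _ _) hn0)
  have h2 : (L : ℝ) ≤ ρ / (16 * M + 16) * n := hL.trans (mul_le_mul_of_nonneg_right
    ((min_le_right _ _).trans (min_le_left _ _)) hn0)
  have h3 : (L : ℝ) ≤ 1 / (16 * k) * n := hL.trans (mul_le_mul_of_nonneg_right
    ((min_le_right _ _).trans (min_le_right _ _)) hn0)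
  have hnn : n₀ ≤ n := by
    have h4 : 1 ≤ 1 / n₀ * n := hL1'.trans h1
    rw [div_mul_eq_mul_div, one_mul, le_div_iff₀ hn₀p, one_mul] at h4
    exact h4
  have hA : 64 / ρ ^ 2 ≤ n := by
    have : 0 ≤ 16 / ρ + 2 * k := by positivity
    linarith
  have hB : 16 / ρ ≤ n := by
    have : 0 ≤ 64 / ρ ^ 2 + 2 * k := by positivity
    linarith
  have hC : 2 * (k : ℝ) ≤ n := by
    have : 0 ≤ 64 / ρ ^ 2 + 16 / ρ := by positivity
    linarith
  refine ⟨?_, by exact_mod_cast hC, ?_, ?_⟩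
  · have h5 : 16 * (k : ℝ) * L ≤ n := by
      rw [div_mul_eq_mul_div, one_mul, le_div_iff₀ (by positivity)] at h3
      linarith
    exact_mod_cast h5
  · have hs : ((Nat.sqrt n : ℕ) : ℝ) ≤ Real.sqrt n := Real.nat_sqrt_le_real_sqrt
    have hs2 : 8 * Real.sqrt n ≤ ρ * n := by
      have h6 : 64 ≤ n * ρ ^ 2 := (div_le_iff₀ (by positivity)).1 hA
      have h7 : Real.sqrt n * Real.sqrt n = n := Real.mul_self_sqrt hn0
      have h8 : 0 ≤ Real.sqrt n := Real.sqrt_nonneg _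
      have h9 : 8 ≤ ρ * Real.sqrt n := by
        have h10 : (8 : ℝ) ^ 2 ≤ (ρ * Real.sqrt n) ^ 2 := by
          rw [mul_pow, Real.sq_sqrt hn0]
          linarith
        exact (sq_le_sq₀ (by norm_num) (by positivity)).1 h10
      calc 8 * Real.sqrt n ≤ (ρ * Real.sqrt n) * Real.sqrt n :=
            mul_le_mul_of_nonneg_right h9 h8
        _ = ρ * n := by rw [mul_assoc, h7]
    have hm : 16 * (M : ℝ) * L ≤ ρ * n := by
      rw [div_mul_eq_mul_div, le_div_iff₀ (by positivity)] at h2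
      have : 0 ≤ (L : ℝ) * 16 := by positivity
      nlinarith
    have h16 : 16 ≤ ρ * n := by
      have := (div_le_iff₀ hρ0).1 hB
      linarith
    push_cast
    linarith
  · intro N hN
    have hN2 : (2 : ℝ) ≤ N := by exact_mod_cast hN
    have hN0 : (0 : ℝ) < N := by linarith
    have hlog : 0 ≤ Real.log N := Real.log_nonneg (by linarith)
    have hfl : δ * Real.log N ≤ (⌊δ * Real.log N⌋₊ : ℝ) + 1 := (Nat.lt_floor_add_one _).le
    have hexp : ρ ^ (((⌊δ * Real.log N⌋₊ : ℝ) + 1) / 4 ^ k) ≤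
        Real.exp (-((4 * (k : ℝ) + K) * Real.log N)) := by
      rw [hρ, ← Real.exp_mul]
      refine Real.exp_le_exp.2 ?_
      have e1 : -E * (((⌊δ * Real.log N⌋₊ : ℝ) + 1) / 4 ^ k) =
          -((4 * (k : ℝ) + K) * (((⌊δ * Real.log N⌋₊ : ℝ) + 1) / δ)) := by
        rw [hE]
        field_simp
      rw [e1]
      have e2 : Real.log N ≤ ((⌊δ * Real.log N⌋₊ : ℝ) + 1) / δ := by
        rw [le_div_iff₀ hδ]
        linarith
      have e3 : 0 ≤ 4 * (k : ℝ) + K := by positivity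
      have := mul_le_mul_of_nonneg_left e2 e3
      linarith
    have hNe : (N : ℝ) = Real.exp (Real.log N) := (Real.exp_log hN0).symm
    have h4k : (4 : ℝ) ^ k ≤ (N : ℝ) ^ (2 * k) := by
      rw [pow_mul]
      exact pow_le_pow_left₀ (by norm_num) (by nlinarith) k
    have hfin : (N : ℝ) ^ (2 * k) * (N : ℝ) ^ (2 * k) *
        Real.exp (-((4 * (k : ℝ) + K) * Real.log N)) * (N : ℝ) ^ K = 1 := by
      have e4 : ∀ j : ℕ, (N : ℝ) ^ j = Real.exp (j * Real.log N) := by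
        intro j
        rw [Real.exp_nat_mul, ← hNe]
      rw [e4, e4, ← Real.exp_add, ← Real.exp_add, ← Real.exp_add]
      rw [← Real.exp_zero]
      congr 1
      push_cast
      ring
    have hρn : 0 ≤ ρ ^ (((⌊δ * Real.log N⌋₊ : ℝ) + 1) / 4 ^ k) := Real.rpow_nonneg hρ0.le _
    refine le_of_le_of_eq ?_ hfin
    refine mul_le_mul_of_nonneg_right ?_ (by positivity)
    exact mul_le_mul (mul_le_mul_of_nonneg_left h4k (by positivity)) hexp hρn (by positivity)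

end Pool.Agent.Helper88.GP
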