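import Pool.Agent.Helper88.GP.Union
import Pool.Agent.Helper88.GP.Big
import Pool.Agent.Helper88.GP.Num
import Pool.Agent.Helper88.GP.Int

set_option autoImplicit false

/-!
# GP-Main: assembly (owner: helper88)
-/

open Finset

namespace Pool.Agent.Helper88.GP

theorem one_le_mx {k : ℕ} {A : Finset ℤ} (hA : A.Nonempty) : 1 ≤ mx k A := by
  obtain ⟨a, ha⟩ := hA
  have h1 : ((Fintype.piFinset (fun _ : Fin k => A)).image
      (fun f : Fin k → ℤ => ∑ i, f i)).Nonempty :=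
    ⟨_, mem_image_of_mem _ (Fintype.mem_piFinset.2 (fun _ => ha) :
      (fun _ : Fin k => a) ∈ Fintype.piFinset (fun _ : Fin k => A))⟩
  have h2 := card_pos.2 h1
  refine le_trans ?_ (le_max_left _ _)
  exact_mod_cast h2

theorem small_sets {k : ℕ} {ε c : ℝ} (hε : 0 < ε) (hc : c ≤ 1 / 2 ^ k) {A : Finset ℤ}
    (hA : A.Nonempty) {n : ℕ} (hn : n ≤ 2) (hn1 : 1 ≤ n) :
    c * (n : ℝ) ^ ((k : ℝ) - ε) ≤ mx k A := by
  refine le_trans ?_ (one_le_mx hA)
  have h1 : (1 : ℝ) ≤ n := by exact_mod_cast hn1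
  have h2 : (n : ℝ) ≤ 2 := by exact_mod_cast hn
  have h3 : (n : ℝ) ^ ((k : ℝ) - ε) ≤ 2 ^ k := by
    calc (n : ℝ) ^ ((k : ℝ) - ε) ≤ (n : ℝ) ^ (k : ℝ) :=
          Real.rpow_le_rpow_of_exponent_le h1 (by linarith)
      _ = (n : ℝ) ^ k := Real.rpow_natCast _ _
      _ ≤ 2 ^ k := pow_le_pow_left₀ (by linarith) h2 k
  calc c * (n : ℝ) ^ ((k : ℝ) - ε) ≤ 1 / 2 ^ k * 2 ^ k :=
        mul_le_mul hc h3 (by positivity) (by positivity)
    _ = 1 := by field_simp

theorem gp (k : ℕ) (hk : 1 ≤ k) (ε : ℝ) (hε : 0 < ε) (hfew : ∃ c : ℝ, 0 < c ∧ FewH k ε c)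
    (η : ℝ) (hη : 0 < η) (M K : ℕ) : ∃ c : ℝ, 0 < c ∧
    ∀ P : Finset ℕ, (∀ q ∈ P, q.Prime ∧ q ≤ P.card ^ M) →
      ∀ A : Finset ℤ, (∀ a ∈ A, a ≠ 0 ∧ a.natAbs.primeFactors ⊆ P ∧
          (a.natAbs.primeFactorsList.length : ℝ) ≤ c * P.card) →
        (Nat.card {π : Equiv.Perm P // ∃ B ⊆ A, B.Nonempty ∧ (A.card : ℝ) ^ η ≤ B.card ∧
            mx k (B.image (rel P π)) < c * (B.card : ℝ) ^ ((k : ℝ) - ε)} : ℝ) *
          (A.card : ℝ) ^ K ≤ (P.card.factorial : ℝ) := by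
  classical
  obtain ⟨c₁, hc₁, hF⟩ := hfew
  have hδ : 0 < c₁ * η / 2 := by positivity
  obtain ⟨c₂, ρ, hc₂, hρ, hρ1, hpar⟩ := params k M K hk (c₁ * η / 2) hδ
  have hk0 : (0 : ℝ) < k := by exact_mod_cast hk
  set c₃ : ℝ := min (1 / (2 * (k.factorial : ℝ)))
    (min (c₁ / (k : ℝ) ^ (2 * k)) (1 / (k : ℝ) ^ (4 * k))) with hc₃
  have hc₃0 : 0 < c₃ := by
    rw [hc₃]
    have : (0 : ℝ) < k.factorial := by exact_mod_cast k.factorial_pos
    exact lt_min (by positivity) (lt_min (by positivity) (by positivity))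
  refine ⟨min c₂ (min c₃ (1 / 2 ^ k)), lt_min hc₂ (lt_min hc₃0 (by positivity)), ?_⟩
  set c : ℝ := min c₂ (min c₃ (1 / 2 ^ k)) with hc
  have hcc₂ : c ≤ c₂ := min_le_left _ _
  have hcc₃ : c ≤ c₃ := (min_le_right _ _).trans (min_le_left _ _)
  have hccs : c ≤ 1 / 2 ^ k := (min_le_right _ _).trans (min_le_right _ _)
  clear_value c c₃
  intro P hP A hA
  -- the easy cases
  have heasy : A.card ≤ 2 →
      (Nat.card {π : Equiv.Perm P // ∃ B ⊆ A, B.Nonempty ∧ (A.card : ℝ) ^ η ≤ B.card ∧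
            mx k (B.image (rel P π)) < c * (B.card : ℝ) ^ ((k : ℝ) - ε)} : ℝ) *
          (A.card : ℝ) ^ K ≤ (P.card.factorial : ℝ) := by
    intro h2
    have hempty : IsEmpty {π : Equiv.Perm P // ∃ B ⊆ A, B.Nonempty ∧ (A.card : ℝ) ^ η ≤ B.card ∧
            mx k (B.image (rel P π)) < c * (B.card : ℝ) ^ ((k : ℝ) - ε)} := by
      refine ⟨fun ⟨π, B, hBA, hB, _, hlt⟩ => ?_⟩
      have h3 := small_sets (k := k) hε hccs (A := B.image (rel P π)) (hB.image _)
        ((card_le_card hBA).trans h2) (card_pos.2 hB)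
      linarith
    rw [Nat.card_eq_zero.2 (Or.inl hempty)]
    simp
  by_cases hcard : A.card ≤ 2
  · exact heasy hcard
  rw [not_le] at hcard
  have hAne : A.Nonempty := card_pos.1 (by omega)
  set L : ℕ := A.sup (fun a => a.natAbs.primeFactorsList.length) with hL
  obtain ⟨a₀, ha₀, hLa₀⟩ := exists_mem_eq_sup A hAne (fun a => a.natAbs.primeFactorsList.length)
  have hLle : ∀ a ∈ A, a.natAbs.primeFactorsList.length ≤ L := fun a ha =>
    le_sup (f := fun a : ℤ => a.natAbs.primeFactorsList.length) ha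
  have hL1 : 1 ≤ L := by
    by_contra hL0
    have hL0' : L = 0 := by omega
    apply absurd hcard
    rw [not_lt]
    have hsub : A ⊆ ({1, -1} : Finset ℤ) := by
      intro a ha
      have := unit_of_length a (hA a ha).1 (by have := hLle a ha; omega)
      simp only [mem_insert, mem_singleton]
      exact this
    exact (card_le_card hsub).trans (by decide)
  have hLc : (L : ℝ) ≤ c₂ * P.card := by
    have h1 := (hA a₀ ha₀).2.2
    rw [hL, hLa₀]
    exact h1.trans (mul_le_mul_of_nonneg_right hcc₂ (Nat.cast_nonneg _))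
  obtain ⟨h16, h2k, hW, hN⟩ := hpar P.card L hLc hL1
  have hN' := hN A.card (by omega)
  set d : ℕ := ⌊c₁ * η / 2 * Real.log A.card⌋₊ with hd
  have hpP : ∀ q ∈ P, q.Prime := fun q hq => (hP q hq).1
  have hsum : ∀ x ∈ A, ∑ q, ex P x q ≤ L := fun x hx =>
    (ex_sum P hpP x (hA x hx).1).trans (hLle x hx)
  have hsgn : ∀ x ∈ A, |Int.sign x| = 1 := by
    intro x hx
    rcases lt_or_gt_of_ne (hA x hx).1 with h | h
    · rw [Int.sign_eq_neg_one_of_neg h]; rfl
    · rw [Int.sign_eq_one_of_pos h]; rfl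
  have hcount := good_count k M L d hk hpP (fun q hq => (hP q hq).2) h16 h2k Int.sign (ex P) A
    (fun x hx => (hsgn x hx).le) hsum ρ hρ hρ1 hW
  -- bad permutations are not good
  have hbad : (Nat.card {π : Equiv.Perm P // ∃ B ⊆ A, B.Nonempty ∧ (A.card : ℝ) ^ η ≤ B.card ∧
            mx k (B.image (rel P π)) < c * (B.card : ℝ) ^ ((k : ℝ) - ε)} : ℝ) ≤
      ((univ.filter fun π : Equiv.Perm P => ¬ Good Int.sign (ex P) A k d π).card : ℝ) := by
    rw [Nat.card_eq_fintype_card, Fintype.card_subtype]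
    have : (univ.filter fun π : Equiv.Perm P => ∃ B ⊆ A, B.Nonempty ∧
        (A.card : ℝ) ^ η ≤ B.card ∧
        mx k (B.image (rel P π)) < c * (B.card : ℝ) ^ ((k : ℝ) - ε)) ⊆
        (univ.filter fun π : Equiv.Perm P => ¬ Good Int.sign (ex P) A k d π) := by
      intro π hπ
      simp only [mem_filter, mem_univ, true_and] at hπ ⊢
      obtain ⟨B, hBA, hB, hBc, hlt⟩ := hπ
      intro hgood
      have hApos : (0 : ℝ) < A.card := by exact_mod_cast card_pos.2 hAne
      have hBpos : (0 : ℝ) < B.card := by exact_mod_cast card_pos.2 hB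
      have hlog : η * Real.log A.card ≤ Real.log B.card := by
        rw [← Real.log_rpow hApos]
        exact Real.log_le_log (Real.rpow_pos_of_pos hApos _) hBc
      have hA1 : (1 : ℝ) ≤ A.card := by exact_mod_cast card_pos.2 hAne
      have hdle : (d : ℝ) ≤ c₁ / 2 * Real.log B.card := by
        have h1 : (d : ℝ) ≤ c₁ * η / 2 * Real.log A.card :=
          Nat.floor_le (mul_nonneg hδ.le (Real.log_nonneg hA1))
        have h2 : c₁ * η / 2 * Real.log A.card = c₁ / 2 * (η * Real.log A.card) := by ring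
        rw [h2] at h1
        exact h1.trans (mul_le_mul_of_nonneg_left hlog (by positivity))
      have hinj : ∀ x ∈ A, ∀ y ∈ A, Int.sign x = Int.sign y → ex P x = ex P y → x = y :=
        fun x hx y hy hs he => ex_inj P x y (hA x hx).1 (hA y hy).1 (hA x hx).2.1 (hA y hy).2.1 hs he
      have hmain := big_of_good k d hk ε c₁ hε hc₁ hF hpP Int.sign (ex P) A hsgn hinj π hgood B
        hBA hB hdle
      have himg : B.image (rel P π) = B.image (val Int.sign (ex P) π) :=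
        image_congr (fun x _ => rel_eq_val P π x)
      rw [himg] at hlt
      rw [← hc₃] at hmain
      have h4 : c * (B.card : ℝ) ^ ((k : ℝ) - ε) ≤ c₃ * (B.card : ℝ) ^ ((k : ℝ) - ε) :=
        mul_le_mul_of_nonneg_right hcc₃ (Real.rpow_nonneg hBpos.le _)
      linarith
    exact_mod_cast card_le_card this
  have hK0 : (0 : ℝ) ≤ (A.card : ℝ) ^ K := by positivity
  have hfac : (0 : ℝ) ≤ (P.card.factorial : ℝ) := by positivity
  calc _ ≤ ((univ.filter fun π : Equiv.Perm P => ¬ Good Int.sign (ex P) A k d π).card : ℝ) *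
        (A.card : ℝ) ^ K := mul_le_mul_of_nonneg_right hbad hK0
    _ ≤ ((A.card : ℝ) ^ (2 * k) * 4 ^ k * ρ ^ (((d : ℝ) + 1) / 4 ^ k) *
        (P.card.factorial : ℝ)) * (A.card : ℝ) ^ K := mul_le_mul_of_nonneg_right hcount hK0
    _ = ((A.card : ℝ) ^ (2 * k) * 4 ^ k * ρ ^ (((d : ℝ) + 1) / 4 ^ k) * (A.card : ℝ) ^ K) *
        (P.card.factorial : ℝ) := by ring
    _ ≤ 1 * (P.card.factorial : ℝ) := mul_le_mul_of_nonneg_right hN' hfac
    _ = (P.card.factorial : ℝ) := one_mul _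

end Pool.Agent.Helper88.GP
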