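import Pool.Agent.Helper24.FG.G05
import Pool.Agent.Helper88.GP.Main

set_option autoImplicit false

/-!
# GP-Link: the hypothesis `FewH` is the landed theorem on few primes
-/

open Finset

namespace Pool.Agent.Helper88.GP

theorem fewH (k : ℕ) (hk : 1 ≤ k) (ε : ℝ) (hε : 0 < ε) : ∃ c : ℝ, 0 < c ∧ FewH k ε c := by
  classical
  obtain ⟨c, hc, h⟩ := Pool.Agent.Helper24.PP.few k hk ε hε
  refine ⟨c, hc, fun A hA g hg hT => ?_⟩
  have hA1 : (1 : ℝ) ≤ A.card := by exact_mod_cast card_pos.2 hA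
  have hlog : 0 ≤ c * Real.log A.card := mul_nonneg hc.le (Real.log_nonneg hA1)
  have key := h A hA g ?_
  · exact key
  · have h1 : ∑ a ∈ A.erase 0, ((Pool.Agent.Helper24.PP.act g a).card : ℝ) ≤
        ∑ a ∈ A.erase 0, c * Real.log A.card := by
      refine sum_le_sum (fun a ha => hT a (mem_of_mem_erase ha) _ (fun p hp => ?_))
      exact ⟨Pool.Agent.Helper24.PP.prime_of_mem_act hp, (mem_filter.1 hp).2⟩
    have h2 : ∑ a ∈ A.erase 0, c * Real.log A.card ≤ ∑ a ∈ A, c * Real.log A.card :=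
      sum_le_sum_of_subset_of_nonneg (erase_subset _ _) (fun _ _ _ => hlog)
    refine h1.trans (h2.trans ?_)
    rw [sum_const, nsmul_eq_mul]
    apply le_of_eq
    ring

/-- The theorem on almost all relabellings, without hypothesis. -/
theorem gp_final (k : ℕ) (hk : 1 ≤ k) (ε η : ℝ) (hε : 0 < ε) (hη : 0 < η) (M K : ℕ) :
    ∃ c : ℝ, 0 < c ∧
    ∀ P : Finset ℕ, (∀ q ∈ P, q.Prime ∧ q ≤ P.card ^ M) →
      ∀ A : Finset ℤ, (∀ a ∈ A, a ≠ 0 ∧ a.natAbs.primeFactors ⊆ P ∧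
          (a.natAbs.primeFactorsList.length : ℝ) ≤ c * P.card) →
        (Nat.card {π : Equiv.Perm P // ∃ B ⊆ A, B.Nonempty ∧ (A.card : ℝ) ^ η ≤ B.card ∧
            mx k (B.image (rel P π)) < c * (B.card : ℝ) ^ ((k : ℝ) - ε)} : ℝ) *
          (A.card : ℝ) ^ K ≤ (P.card.factorial : ℝ) :=
  gp k hk ε hε (fewH k hk ε hε) η hη M K

end Pool.Agent.Helper88.GP
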