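import Pool.Agent.Helper88.GP.Defs

set_option autoImplicit false

/-!
# GP-Pattern: the pattern argument

For `q : P` let `μ q` be the minimum of `e x q` over `x ∈ R` and `f x q = e x q - μ q`. For
`q ∈ supp e R` let `S_q = {x ∈ R : e x q = μ q}`: a non-empty proper subset of `R`. If `supp e R` is
empty take `T = ∅` and `Y = 1`. Otherwise, by the pigeonhole principle
(`Finset.exists_lt_card_fiber_of_mul_lt_card_of_maps_to` or a sum over `R.powerset`, which has
`2 ^ |R|` elements), some `S` is `S_q` for at least `|supp| / 2 ^ |R|` of the `q ∈ supp e R`; let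
`T` be the set of these `q` (we need `|supp| ≤ 2 ^ |R| * |T|`; `T` is not empty as `supp` is not) and
`Y π = ∑ x ∈ S, m x * s x * ∏ q, (π q) ^ f x q`.
* `f x q = 0` for `q ∉ supp`, and for `x ∈ S`, `q ∈ T`: so `Y π` depends only on `π` on `supp \ T`.
* `|Y π| ≤ ∑ |m x| y ^ (∑ q, f x q) ≤ K y ^ L`.
* `val s e π x = G π * (s x * ∏ q, (π q) ^ f x q)` with `G π = ∏ q, (π q) ^ μ q ≠ 0`. If `MinRel`:
  `Y π ≠ 0` because `S` is a non-empty proper subset of `R`; and for `q ∈ T`: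
  `Y π = - ∑ x ∈ R \ S, m x * s x * ∏ q, (π q) ^ f x q`, where every term is divisible by `π q` as
  `f x q ≥ 1` for `x ∈ R \ S`.
-/

open Finset

namespace Pool.Agent.Helper88.GP

variable {X : Type*} [DecidableEq X] {P : Finset ℕ}

theorem pattern (s : X → ℤ) (e : X → P → ℕ) (m : X → ℤ) (R : Finset X) (hR : R.Nonempty)
    (y L K : ℕ) (hp : ∀ q ∈ P, q.Prime) (hy : ∀ q ∈ P, q ≤ y) (hy1 : 1 ≤ y) (hK : 1 ≤ K)
    (hs : ∀ x ∈ R, |s x| ≤ 1) (hL : ∀ x ∈ R, ∑ q, e x q ≤ L) (hm : ∑ x ∈ R, |m x| ≤ (K : ℤ)) :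
    ∃ (T : Finset P) (Y : Equiv.Perm P → ℤ), T ⊆ supp e R ∧
      (supp e R).card ≤ 2 ^ R.card * T.card ∧
      (∀ π π' : Equiv.Perm P, (∀ q ∈ supp e R, q ∉ T → π q = π' q) → Y π = Y π') ∧
      (∀ π, |Y π| ≤ (K : ℤ) * (y : ℤ) ^ L) ∧
      ∀ π, MinRel s e π m R → Y π ≠ 0 ∧ ∀ q ∈ T, ((π q : ℕ) : ℤ) ∣ Y π := by
  classical
  rcases (supp e R).eq_empty_or_nonempty with h0 | h0
  · refine ⟨∅, fun _ => 1, by simp, by simp [h0], fun _ _ _ => rfl, fun π => ?_, fun π _ => ?_⟩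
    · have h1 : (1 : ℤ) ≤ (K : ℤ) := by exact_mod_cast hK
      have h2 : (1 : ℤ) ≤ (y : ℤ) ^ L := one_le_pow₀ (by exact_mod_cast hy1)
      simpa using one_le_mul_of_one_le_of_one_le h1 h2
    · exact ⟨one_ne_zero, by simp⟩
  -- the minima
  set μ : P → ℕ := fun q => R.inf' hR (fun x => e x q) with hμ
  have hμle : ∀ x ∈ R, ∀ q, μ q ≤ e x q := fun x hx q => Finset.inf'_le _ hx
  have hμex : ∀ q, ∃ x ∈ R, μ q = e x q := fun q => Finset.exists_mem_eq_inf' hR _
  set f : X → P → ℕ := fun x q => e x q - μ q with hf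
  have hef : ∀ x ∈ R, ∀ q, e x q = μ q + f x q := fun x hx q => by
    have := hμle x hx q
    simp only [hf]
    omega
  set Sq : P → Finset X := fun q => R.filter fun x => e x q = μ q with hSq
  -- pigeonhole
  obtain ⟨S, hSR, hScard⟩ : ∃ S ∈ R.powerset,
      (supp e R).card ≤ 2 ^ R.card * ((supp e R).filter fun q => Sq q = S).card := by
    by_contra hcon
    push Not at hcon
    have hmaps : ∀ q ∈ supp e R, Sq q ∈ R.powerset := fun q _ =>
      Finset.mem_powerset.2 (Finset.filter_subset _ _)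
    have hc := Finset.card_eq_sum_card_fiberwise (f := Sq) (s := supp e R) (t := R.powerset)
      (fun q hq => hmaps q hq)
    have h1 : ∑ S ∈ R.powerset, 2 ^ R.card * ((supp e R).filter fun q => Sq q = S).card <
        ∑ _S ∈ R.powerset, (supp e R).card :=
      Finset.sum_lt_sum_of_nonempty ⟨∅, by simp⟩ fun S hS => hcon S hS
    rw [← Finset.mul_sum, ← hc, Finset.sum_const, Finset.card_powerset, smul_eq_mul] at h1
    exact lt_irrefl _ h1
  set T : Finset P := (supp e R).filter fun q => Sq q = S with hT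
  have hSR' : S ⊆ R := Finset.mem_powerset.1 hSR
  have hTne : T.Nonempty := by
    rw [Finset.nonempty_iff_ne_empty]
    intro hTe
    rw [hTe, Finset.card_empty, mul_zero] at hScard
    exact absurd (Finset.card_pos.2 h0) (by omega)
  have hfT : ∀ q ∈ T, ∀ x ∈ S, f x q = 0 := by
    intro q hq x hx
    have h1 : Sq q = S := (Finset.mem_filter.1 hq).2
    rw [← h1] at hx
    have h2 := (Finset.mem_filter.1 hx).2
    simp only [hf]
    omega
  have hfT' : ∀ q ∈ T, ∀ x ∈ R, x ∉ S → f x q ≠ 0 := by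
    intro q hq x hx hxS h0'
    apply hxS
    have h1 : Sq q = S := (Finset.mem_filter.1 hq).2
    rw [← h1]
    refine Finset.mem_filter.2 ⟨hx, ?_⟩
    have := hef x hx q
    omega
  have hfs : ∀ q, q ∉ supp e R → ∀ x ∈ R, f x q = 0 := by
    intro q hq x hx
    obtain ⟨z, hz, hz'⟩ := hμex q
    have h1 : e x q = e z q := by
      by_contra hne
      exact hq (Finset.mem_filter.2 ⟨Finset.mem_univ _, x, hx, z, hz, hne⟩)
    simp only [hf]
    omega
  obtain ⟨q₀, hq₀⟩ := hTne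
  have hSq₀ : Sq q₀ = S := (Finset.mem_filter.1 hq₀).2
  have hSne : S.Nonempty := by
    obtain ⟨z, hz, hz'⟩ := hμex q₀
    rw [← hSq₀]
    exact ⟨z, Finset.mem_filter.2 ⟨hz, hz'.symm⟩⟩
  have hSneR : S ≠ R := by
    intro hSR''
    obtain ⟨_, x, hx, z, hz, hne⟩ := Finset.mem_filter.1 (Finset.mem_filter.1 hq₀).1
    rw [← hSR'', ← hSq₀] at hx hz
    exact hne ((Finset.mem_filter.1 hx).2.trans (Finset.mem_filter.1 hz).2.symm)
  have hπpos : ∀ (π : Equiv.Perm P) (q : P), (0 : ℤ) < ((π q : ℕ) : ℤ) := fun π q => by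
    exact_mod_cast (hp _ (π q).2).pos
  refine ⟨T, fun π => ∑ x ∈ S, m x * (s x * ∏ q, ((π q : ℕ) : ℤ) ^ f x q),
    Finset.filter_subset _ _, hScard, ?_, ?_, ?_⟩
  · intro π π' hππ
    refine Finset.sum_congr rfl fun x hx => ?_
    congr 2
    refine Finset.prod_congr rfl fun q _ => ?_
    by_cases hq : q ∈ supp e R
    · by_cases hqT : q ∈ T
      · rw [hfT q hqT x hx, pow_zero, pow_zero]
      · rw [hππ q hq hqT]
    · rw [hfs q hq x (hSR' hx), pow_zero, pow_zero]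
  · intro π
    have hprod : ∀ x ∈ R, ∏ q, ((π q : ℕ) : ℤ) ^ f x q ≤ (y : ℤ) ^ L := by
      intro x hx
      calc ∏ q, ((π q : ℕ) : ℤ) ^ f x q ≤ ∏ q : P, (y : ℤ) ^ f x q := by
            refine Finset.prod_le_prod (fun q _ => pow_nonneg (hπpos π q).le _) fun q _ => ?_
            refine pow_le_pow_left₀ (hπpos π q).le ?_ _
            exact_mod_cast hy _ (π q).2
        _ = (y : ℤ) ^ ∑ q, f x q := by rw [Finset.prod_pow_eq_pow_sum]
        _ ≤ (y : ℤ) ^ L := by
            refine pow_le_pow_right₀ (by exact_mod_cast hy1) ?_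
            refine le_trans (Finset.sum_le_sum fun q _ => ?_) (hL x hx)
            have := hef x hx q
            omega
    have hy0 : (0 : ℤ) ≤ (y : ℤ) ^ L := pow_nonneg (by exact_mod_cast Nat.zero_le y) _
    calc |∑ x ∈ S, m x * (s x * ∏ q, ((π q : ℕ) : ℤ) ^ f x q)|
        ≤ ∑ x ∈ S, |m x * (s x * ∏ q, ((π q : ℕ) : ℤ) ^ f x q)| := Finset.abs_sum_le_sum_abs _ _
      _ ≤ ∑ x ∈ S, |m x| * (y : ℤ) ^ L := by
          refine Finset.sum_le_sum fun x hx => ?_
          rw [abs_mul, abs_mul]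
          refine mul_le_mul_of_nonneg_left ?_ (abs_nonneg _)
          have h1 : 0 ≤ ∏ q, ((π q : ℕ) : ℤ) ^ f x q :=
            Finset.prod_nonneg fun q _ => pow_nonneg (hπpos π q).le _
          rw [abs_of_nonneg h1]
          calc |s x| * ∏ q, ((π q : ℕ) : ℤ) ^ f x q ≤ 1 * ∏ q, ((π q : ℕ) : ℤ) ^ f x q :=
                mul_le_mul_of_nonneg_right (hs x (hSR' hx)) h1
            _ ≤ (y : ℤ) ^ L := by rw [one_mul]; exact hprod x (hSR' hx)
      _ = (∑ x ∈ S, |m x|) * (y : ℤ) ^ L := by rw [Finset.sum_mul]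
      _ ≤ (K : ℤ) * (y : ℤ) ^ L := by
          refine mul_le_mul_of_nonneg_right (le_trans ?_ hm) hy0
          exact Finset.sum_le_sum_of_subset_of_nonneg hSR' fun x _ _ => abs_nonneg _
  · intro π hmin
    obtain ⟨_, hsum, hsub⟩ := hmin
    set G : ℤ := ∏ q, ((π q : ℕ) : ℤ) ^ μ q with hG
    have hG0 : G ≠ 0 := Finset.prod_ne_zero_iff.2 fun q _ => pow_ne_zero _ (hπpos π q).ne'
    have hval : ∀ x ∈ R, m x * val s e π x = G * (m x * (s x * ∏ q, ((π q : ℕ) : ℤ) ^ f x q)) := by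
      intro x hx
      have h1 : ∏ q, ((π q : ℕ) : ℤ) ^ e x q = G * ∏ q, ((π q : ℕ) : ℤ) ^ f x q := by
        rw [hG, ← Finset.prod_mul_distrib]
        refine Finset.prod_congr rfl fun q _ => ?_
        rw [hef x hx q, pow_add]
      simp only [val]
      rw [h1]
      ring
    have hS1 : ∑ x ∈ S, m x * val s e π x =
        G * ∑ x ∈ S, m x * (s x * ∏ q, ((π q : ℕ) : ℤ) ^ f x q) := by
      rw [Finset.mul_sum]
      exact Finset.sum_congr rfl fun x hx => hval x (hSR' hx)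
    have hR1 : ∑ x ∈ R, m x * val s e π x =
        G * ∑ x ∈ R, m x * (s x * ∏ q, ((π q : ℕ) : ℤ) ^ f x q) := by
      rw [Finset.mul_sum]
      exact Finset.sum_congr rfl fun x hx => hval x hx
    refine ⟨?_, fun q hq => ?_⟩
    · intro hY
      beta_reduce at hY
      apply hsub S hSR' hSne hSneR
      rw [hS1, hY, mul_zero]
    · rw [hR1] at hsum
      have h2 := (mul_eq_zero.1 hsum).resolve_left hG0
      rw [← Finset.sum_sdiff hSR'] at h2
      have h3 : ((π q : ℕ) : ℤ) ∣ ∑ x ∈ R \ S, m x * (s x * ∏ q, ((π q : ℕ) : ℤ) ^ f x q) := by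
        refine Finset.dvd_sum fun x hx => ?_
        obtain ⟨hx1, hx2⟩ := Finset.mem_sdiff.1 hx
        refine Dvd.dvd.mul_left (Dvd.dvd.mul_left ?_ _) _
        refine dvd_trans (dvd_pow_self _ (hfT' q hq x hx1 hx2)) ?_
        exact Finset.dvd_prod_of_mem (fun q => ((π q : ℕ) : ℤ) ^ f x q) (Finset.mem_univ q)
      exact (dvd_add_right h3).1 (h2 ▸ dvd_zero _)

end Pool.Agent.Helper88.GP
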