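import Pool.Agent.Helper88.GP.Count
import Pool.Agent.Helper88.GP.Div
import Pool.Agent.Helper88.GP.Pattern

set_option autoImplicit false

/-!
# GP-Rel: the number of permutations for which a given relation holds

Let `n = |P|`. Use `pattern` with `y = n ^ M`, `K = 2 k`, and `div_count`. `V π` = the set of the
`q : P` with `(q : ℤ) ∣ Y π` if `Y π ≠ 0`, and `∅` if `Y π = 0`; `W = sqrt n + (2 M L + 2)`. Every
prime of `supp e R` divides some `x ∈ R` (`e x q ≥ 1` for one `x`), so
`|supp e R| ≤ ∑ x ∈ R, ∑ q, e x q ≤ 2 k L ≤ n / 8`, hence `n - |supp| - |T| ≥ n / 2`.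
-/

open Finset

namespace Pool.Agent.Helper88.GP

variable {X : Type*} [DecidableEq X] {P : Finset ℕ}

private theorem supp_card_le (e : X → P → ℕ) (R : Finset X) (L : ℕ)
    (hL : ∀ x ∈ R, ∑ q, e x q ≤ L) : (supp e R).card ≤ R.card * L := by
  classical
  have h1 : supp e R ⊆ R.biUnion fun x => univ.filter fun q : P => 1 ≤ e x q := by
    intro q hq
    obtain ⟨x, hx, y, hy, hxy⟩ := (mem_filter.1 hq).2
    rw [mem_biUnion]
    by_cases h : 1 ≤ e x q
    · exact ⟨x, hx, mem_filter.2 ⟨mem_univ _, h⟩⟩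
    · exact ⟨y, hy, mem_filter.2 ⟨mem_univ _, by omega⟩⟩
  refine (card_le_card h1).trans ((card_biUnion_le_card_mul _ _ L fun x hx => ?_))
  refine le_trans ?_ (hL x hx)
  rw [card_filter]
  refine sum_le_sum fun q _ => ?_
  split_ifs with h
  · exact h
  · exact Nat.zero_le _

open Classical in
theorem rel_count (k M L : ℕ) (hk : 1 ≤ k) (hp : ∀ q ∈ P, q.Prime) (hM : ∀ q ∈ P, q ≤ P.card ^ M)
    (hLP : 16 * k * L ≤ P.card) (hkP : 2 * k ≤ P.card) (s : X → ℤ) (e : X → P → ℕ) (m : X → ℤ)
    (R : Finset X) (hRc : R.card ≤ 2 * k) (hs : ∀ x ∈ R, |s x| ≤ 1)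
    (hL : ∀ x ∈ R, ∑ q, e x q ≤ L) (hm : ∑ x ∈ R, |m x| ≤ ((2 * k : ℕ) : ℤ)) :
    ∃ r : ℕ, (supp e R).card ≤ 4 ^ k * r ∧
      ((univ.filter fun π : Equiv.Perm P => MinRel s e π m R).card : ℝ) * ((P.card : ℝ) / 2) ^ r ≤
        ((Nat.sqrt P.card + (2 * M * L + 2) : ℕ) : ℝ) ^ r * (P.card.factorial : ℝ) := by
  have hn2 : 2 ≤ P.card := le_trans (by omega) hkP
  rcases R.eq_empty_or_nonempty with hR | hR
  · subst hR
    refine ⟨0, by simp [supp], ?_⟩
    have h0 : (univ.filter fun π : Equiv.Perm P => MinRel s e π m (∅ : Finset X)) = ∅ := by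
      rw [filter_eq_empty_iff]
      intro π _ h
      exact not_nonempty_empty h.1
    rw [h0]
    simp
  · obtain ⟨T, Y, hTD, hcard, hYd, hYb, hYr⟩ := pattern s e m R hR (P.card ^ M) L (2 * k) hp hM
      (Nat.one_le_pow _ _ (by omega)) (by omega) hs hL hm
    have hsupp : (supp e R).card ≤ 2 * k * L :=
      (supp_card_le e R L hL).trans (Nat.mul_le_mul_right L hRc)
    have hTc : T.card ≤ (supp e R).card := card_le_card hTD
    have h16 : 16 * k * L = 8 * (2 * k * L) := by ring
    rw [h16] at hLP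
    refine ⟨T.card, ?_, ?_⟩
    · refine hcard.trans (Nat.mul_le_mul_right _ ?_)
      calc 2 ^ R.card ≤ 2 ^ (2 * k) := Nat.pow_le_pow_right (by norm_num) hRc
        _ = 4 ^ k := by rw [pow_mul]; norm_num
    · set V : Equiv.Perm P → Finset P := fun π =>
        if Y π = 0 then ∅ else univ.filter fun q : P => ((q : ℕ) : ℤ) ∣ Y π with hVdef
      have hcp : Fintype.card P = P.card := Fintype.card_coe P
      have hW : ∀ π, (V π).card ≤ Nat.sqrt P.card + (2 * M * L + 2) := by
        intro π
        by_cases h0 : Y π = 0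
        · simp [hVdef, h0]
        · have h1 : |Y π| ≤ (P.card : ℤ) * ((P.card : ℤ) ^ M) ^ L := by
            refine (hYb π).trans ?_
            have h2 : ((P.card ^ M : ℕ) : ℤ) ^ L = ((P.card : ℤ) ^ M) ^ L := by push_cast; rfl
            rw [h2]
            refine mul_le_mul_of_nonneg_right ?_ (by positivity)
            exact_mod_cast hkP
          have h3 := div_count P M L hn2 hp (Y π) h0 h1
          refine le_trans ?_ h3
          simp only [hVdef, if_neg h0]
          refine card_le_card_of_injOn (fun q : P => (q : ℕ)) ?_ ?_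
          · intro q hq
            have hq' := (mem_filter.1 hq).2
            exact mem_filter.2 ⟨q.2, hq'⟩
          · intro a _ b _ hab
            exact Subtype.ext hab
      have hmain := perm_count T (supp e R) hTD (by rw [hcp]; omega)
        (fun π : Equiv.Perm P => MinRel s e π m R) V (Nat.sqrt P.card + (2 * M * L + 2)) hW
        (fun π π' h => by
          have := hYd π π' h
          simp only [hVdef, this])
        (fun π hπ x hx => by
          obtain ⟨h1, h2⟩ := hYr π hπ
          simp only [hVdef, if_neg h1]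
          exact mem_filter.2 ⟨mem_univ _, h2 x hx⟩)
      rw [hcp] at hmain
      have hreal : ((univ.filter fun π : Equiv.Perm P => MinRel s e π m R).card : ℝ) *
          ((P.card - (supp e R).card - T.card : ℕ) : ℝ) ^ T.card ≤
          ((Nat.sqrt P.card + (2 * M * L + 2) : ℕ) : ℝ) ^ T.card * (P.card.factorial : ℝ) := by
        exact_mod_cast hmain
      refine le_trans ?_ hreal
      refine mul_le_mul_of_nonneg_left ?_ (Nat.cast_nonneg _)
      refine pow_le_pow_left₀ (by positivity) ?_ _
      have h5 : P.card ≤ 2 * (P.card - (supp e R).card - T.card) := by omega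
      have h6 : (P.card : ℝ) ≤ 2 * ((P.card - (supp e R).card - T.card : ℕ) : ℝ) := by
        exact_mod_cast h5
      linarith

end Pool.Agent.Helper88.GP
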