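import Pool.Agent.Helper88.GP.Rel

set_option autoImplicit false

/-!
# GP-Union: almost all permutations are good

If `π` is not good there are `u, v : Fin k → A` and `R ⊆ image u ∪ image v` with `MinRel` and
`|supp e R| ≥ d + 1`. Number of pairs `u, v`: `|A| ^ (2 k)` (`Fintype.piFinset`); number of `R`: at
most `2 ^ (2 k) = 4 ^ k` (powerset). For each such triple with `|supp e R| ≥ d + 1` the number of
permutations is, by `rel_count`, at most `(2 W / n) ^ r * n! ≤ ρ ^ r * n!` with `4 ^ k r ≥ d + 1`, so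
`ρ ^ r ≤ ρ ^ ((d + 1) / 4 ^ k)` (real powers, `0 < ρ ≤ 1`, `Real.rpow_le_rpow_of_exponent_ge`).
`∑ x ∈ R, |cf u v x| ≤ 2 k` (each index of `u` and of `v` is counted once), `|R| ≤ 2 k`.
-/

open Finset

namespace Pool.Agent.Helper88.GP

variable {X : Type*} [DecidableEq X] {P : Finset ℕ}

private theorem sum_fiber_le {k : ℕ} (u : Fin k → X) (R : Finset X) :
    ∑ x ∈ R, ((univ.filter fun i => u i = x).card : ℤ) ≤ k := by
  have h1 : ∀ x ∈ R, ((univ.filter fun i => u i = x).card : ℤ) =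
      ∑ i : Fin k, if u i = x then (1 : ℤ) else 0 := by
    intro x _
    rw [Finset.card_filter]
    push_cast
    rfl
  rw [Finset.sum_congr rfl h1, Finset.sum_comm]
  calc ∑ i : Fin k, ∑ x ∈ R, (if u i = x then (1 : ℤ) else 0) ≤ ∑ _i : Fin k, (1 : ℤ) := by
        refine Finset.sum_le_sum fun i _ => ?_
        rw [Finset.sum_ite_eq]
        split_ifs <;> norm_num
    _ = k := by simp

private theorem cf_sum_le {k : ℕ} (u v : Fin k → X) (R : Finset X) :
    ∑ x ∈ R, |cf u v x| ≤ ((2 * k : ℕ) : ℤ) := by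
  have h1 := sum_fiber_le u R
  have h2 := sum_fiber_le v R
  calc ∑ x ∈ R, |cf u v x| ≤ ∑ x ∈ R, (((univ.filter fun i => u i = x).card : ℤ) +
        ((univ.filter fun i => v i = x).card : ℤ)) := by
        refine Finset.sum_le_sum fun x _ => ?_
        unfold cf
        rw [abs_le]
        constructor <;> omega
    _ ≤ ((2 * k : ℕ) : ℤ) := by
        rw [Finset.sum_add_distrib]
        push_cast
        linarith

open Classical in
private theorem one_rel (k M L d : ℕ) (hk : 1 ≤ k) (hp : ∀ q ∈ P, q.Prime)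
    (hM : ∀ q ∈ P, q ≤ P.card ^ M) (hLP : 16 * k * L ≤ P.card) (hkP : 2 * k ≤ P.card)
    (s : X → ℤ) (e : X → P → ℕ) (A : Finset X) (hs : ∀ x ∈ A, |s x| ≤ 1)
    (hL : ∀ x ∈ A, ∑ q, e x q ≤ L) (ρ : ℝ) (hρ : 0 < ρ) (hρ1 : ρ ≤ 1)
    (hρW : 2 * ((Nat.sqrt P.card + (2 * M * L + 2) : ℕ) : ℝ) ≤ ρ * P.card)
    (u v : Fin k → X) (hu : ∀ i, u i ∈ A) (hv : ∀ i, v i ∈ A) (R : Finset X)
    (hR : R ⊆ univ.image u ∪ univ.image v) (hd : d + 1 ≤ (supp e R).card) :
    ((univ.filter fun π : Equiv.Perm P => MinRel s e π (cf u v) R).card : ℝ) ≤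
      ρ ^ (((d : ℝ) + 1) / 4 ^ k) * (P.card.factorial : ℝ) := by
  have hRA : ∀ x ∈ R, x ∈ A := by
    intro x hx
    rcases Finset.mem_union.1 (hR hx) with h | h
    · obtain ⟨i, _, rfl⟩ := Finset.mem_image.1 h; exact hu i
    · obtain ⟨i, _, rfl⟩ := Finset.mem_image.1 h; exact hv i
  have hRc : R.card ≤ 2 * k := by
    calc R.card ≤ (univ.image u ∪ univ.image v).card := Finset.card_le_card hR
      _ ≤ (univ.image u).card + (univ.image v).card := Finset.card_union_le _ _
      _ ≤ (univ : Finset (Fin k)).card + (univ : Finset (Fin k)).card :=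
          Nat.add_le_add Finset.card_image_le Finset.card_image_le
      _ = 2 * k := by rw [Finset.card_univ, Fintype.card_fin]; ring
  obtain ⟨r, hr1, hr2⟩ := rel_count k M L hk hp hM hLP hkP s e (cf u v) R hRc
    (fun x hx => hs x (hRA x hx)) (fun x hx => hL x (hRA x hx)) (cf_sum_le u v R)
  have hn : (0 : ℝ) < P.card := by
    have : 0 < P.card := by omega
    exact_mod_cast this
  have hnr : (0 : ℝ) < ((P.card : ℝ) / 2) ^ r := by positivity
  have h1 : ((univ.filter fun π : Equiv.Perm P => MinRel s e π (cf u v) R).card : ℝ) ≤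
      ρ ^ r * (P.card.factorial : ℝ) := by
    have h2 : ((Nat.sqrt P.card + (2 * M * L + 2) : ℕ) : ℝ) ^ r ≤
        (ρ * ((P.card : ℝ) / 2)) ^ r := by
      apply pow_le_pow_left₀ (Nat.cast_nonneg _)
      linarith
    have h3 : ((univ.filter fun π : Equiv.Perm P => MinRel s e π (cf u v) R).card : ℝ) *
        ((P.card : ℝ) / 2) ^ r ≤ (ρ ^ r * (P.card.factorial : ℝ)) * ((P.card : ℝ) / 2) ^ r := by
      refine hr2.trans ((mul_le_mul_of_nonneg_right h2 (Nat.cast_nonneg _)).trans (le_of_eq ?_))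
      rw [mul_pow]; ring
    exact le_of_mul_le_mul_right h3 hnr
  refine h1.trans (mul_le_mul_of_nonneg_right ?_ (Nat.cast_nonneg _))
  rw [← Real.rpow_natCast]
  apply Real.rpow_le_rpow_of_exponent_ge hρ hρ1
  rw [div_le_iff₀ (by positivity)]
  have h4 : d + 1 ≤ 4 ^ k * r := hd.trans hr1
  have h5 : ((d + 1 : ℕ) : ℝ) ≤ ((4 ^ k * r : ℕ) : ℝ) := by exact_mod_cast h4
  push_cast at h5
  linarith

open Classical in
theorem good_count (k M L d : ℕ) (hk : 1 ≤ k) (hp : ∀ q ∈ P, q.Prime)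
    (hM : ∀ q ∈ P, q ≤ P.card ^ M) (hLP : 16 * k * L ≤ P.card) (hkP : 2 * k ≤ P.card)
    (s : X → ℤ) (e : X → P → ℕ) (A : Finset X) (hs : ∀ x ∈ A, |s x| ≤ 1)
    (hL : ∀ x ∈ A, ∑ q, e x q ≤ L) (ρ : ℝ) (hρ : 0 < ρ) (hρ1 : ρ ≤ 1)
    (hρW : 2 * ((Nat.sqrt P.card + (2 * M * L + 2) : ℕ) : ℝ) ≤ ρ * P.card) :
    ((univ.filter fun π : Equiv.Perm P => ¬ Good s e A k d π).card : ℝ) ≤
      (A.card : ℝ) ^ (2 * k) * 4 ^ k * ρ ^ (((d : ℝ) + 1) / 4 ^ k) * (P.card.factorial : ℝ) := by
  set B : ℝ := ρ ^ (((d : ℝ) + 1) / 4 ^ k) * (P.card.factorial : ℝ) with hB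
  have hB0 : 0 ≤ B := by positivity
  set PF : Finset (Fin k → X) := Fintype.piFinset (fun _ : Fin k => A) with hPF
  set Sf : (Fin k → X) × (Fin k → X) → Finset (Finset X) := fun p =>
    (univ.image p.1 ∪ univ.image p.2).powerset.filter (fun R => d + 1 ≤ (supp e R).card) with hSf
  have hsub : (univ.filter fun π : Equiv.Perm P => ¬ Good s e A k d π) ⊆
      (PF ×ˢ PF).biUnion fun p => (Sf p).biUnion fun R =>
        univ.filter fun π : Equiv.Perm P => MinRel s e π (cf p.1 p.2) R := by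
    intro π hπ
    have h := (Finset.mem_filter.1 hπ).2
    unfold Good at h
    push Not at h
    obtain ⟨u, v, hu, hv, R, hR, hmin, hc⟩ := h
    refine Finset.mem_biUnion.2 ⟨(u, v), Finset.mem_product.2
      ⟨Fintype.mem_piFinset.2 hu, Fintype.mem_piFinset.2 hv⟩, ?_⟩
    refine Finset.mem_biUnion.2 ⟨R, Finset.mem_filter.2 ⟨Finset.mem_powerset.2 hR, hc⟩, ?_⟩
    exact Finset.mem_filter.2 ⟨Finset.mem_univ _, hmin⟩
  have hcardS : ∀ p ∈ PF ×ˢ PF, ((Sf p).card : ℝ) ≤ 4 ^ k := by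
    intro p _
    have h1 : (Sf p).card ≤ 2 ^ (2 * k) := by
      calc (Sf p).card ≤ ((univ.image p.1 ∪ univ.image p.2).powerset).card :=
            Finset.card_filter_le _ _
        _ = 2 ^ (univ.image p.1 ∪ univ.image p.2).card := Finset.card_powerset _
        _ ≤ 2 ^ (2 * k) := by
          apply Nat.pow_le_pow_right (by norm_num)
          calc (univ.image p.1 ∪ univ.image p.2).card ≤
                (univ.image p.1).card + (univ.image p.2).card := Finset.card_union_le _ _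
            _ ≤ (univ : Finset (Fin k)).card + (univ : Finset (Fin k)).card :=
                Nat.add_le_add Finset.card_image_le Finset.card_image_le
            _ = 2 * k := by rw [Finset.card_univ, Fintype.card_fin]; ring
    have h2 : (2 : ℕ) ^ (2 * k) = 4 ^ k := by rw [pow_mul]; norm_num
    rw [h2] at h1
    exact_mod_cast h1
  have hPFc : PF.card = A.card ^ k := by
    rw [hPF, Fintype.card_piFinset]
    simp
  have h1 : ((univ.filter fun π : Equiv.Perm P => ¬ Good s e A k d π).card : ℝ) ≤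
      ∑ p ∈ PF ×ˢ PF, ∑ R ∈ Sf p,
        ((univ.filter fun π : Equiv.Perm P => MinRel s e π (cf p.1 p.2) R).card : ℝ) := by
    have h2 : (univ.filter fun π : Equiv.Perm P => ¬ Good s e A k d π).card ≤
        ∑ p ∈ PF ×ˢ PF, ∑ R ∈ Sf p,
          (univ.filter fun π : Equiv.Perm P => MinRel s e π (cf p.1 p.2) R).card :=
      (Finset.card_le_card hsub).trans (Finset.card_biUnion_le.trans
        (Finset.sum_le_sum fun p _ => Finset.card_biUnion_le))
    exact_mod_cast h2
  refine h1.trans ?_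
  have h3 : ∀ p ∈ PF ×ˢ PF, ∑ R ∈ Sf p,
      ((univ.filter fun π : Equiv.Perm P => MinRel s e π (cf p.1 p.2) R).card : ℝ) ≤
        4 ^ k * B := by
    intro p hpm
    have hp1 := Fintype.mem_piFinset.1 (Finset.mem_product.1 hpm).1
    have hp2 := Fintype.mem_piFinset.1 (Finset.mem_product.1 hpm).2
    calc ∑ R ∈ Sf p,
          ((univ.filter fun π : Equiv.Perm P => MinRel s e π (cf p.1 p.2) R).card : ℝ) ≤
          ∑ _R ∈ Sf p, B := by
          refine Finset.sum_le_sum fun R hRm => ?_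
          have hR := Finset.mem_filter.1 hRm
          exact one_rel k M L d hk hp hM hLP hkP s e A hs hL ρ hρ hρ1 hρW p.1 p.2 hp1 hp2 R
            (Finset.mem_powerset.1 hR.1) hR.2
      _ = (Sf p).card * B := by rw [Finset.sum_const, nsmul_eq_mul]
      _ ≤ 4 ^ k * B := mul_le_mul_of_nonneg_right (hcardS p hpm) hB0
  refine (Finset.sum_le_sum h3).trans (le_of_eq ?_)
  rw [Finset.sum_const, nsmul_eq_mul, Finset.card_product, hPFc, hB]
  push_cast
  ring

end Pool.Agent.Helper88.GP
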